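import Pool.Agent.TH37.RZ.Defs
import Pool.Agent.TH480.J749

/-! Small characters (adapted from the proof of helper511 over finite fields). -/

set_option autoImplicit false

namespace Pool.Agent.TH37.RZ.Ch

open Pool.Agent.TH37.RZ

section
variable {C Q' K : Type} [Ring C] {ε : C →+* ℤ}
  [Ring Q'] {φ' : C →+* Q'} [CommRing K] [IsDomain K]

theorem mem_cut {c : C} (h1 : φ' c = 0) (h2 : ε c = 0) : c ∈ Cut ε φ' := by
  change φ' c = (Int.castRingHom Q') (ε c)
  rw [h1, h2, map_zero]

theorem of_cut {z : Cut ε φ'} (h : cutε ε φ' z = 0) : φ' z = 0 ∧ ε z = 0 := by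
  have h2 : ε z = 0 := h
  refine ⟨?_, h2⟩
  have h3 : φ' (z : C) = (Int.castRingHom Q') (ε (z : C)) := z.2
  rw [h3, h2, map_zero]

/-- elements of the cut ideal as elements of the subring -/
def el (c : C) (h : φ' c = 0 ∧ ε c = 0) : Cut ε φ' := ⟨c, mem_cut h.1 h.2⟩

theorem left_mem (c : C) {y : C} (h : φ' y = 0 ∧ ε y = 0) : φ' (c * y) = 0 ∧ ε (c * y) = 0 := by
  rw [map_mul, map_mul, h.1, h.2, mul_zero, mul_zero]
  exact ⟨rfl, rfl⟩

theorem right_mem (c : C) {y : C} (h : φ' y = 0 ∧ ε y = 0) : φ' (y * c) = 0 ∧ ε (y * c) = 0 := by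
  rw [map_mul, map_mul, h.1, h.2, zero_mul, zero_mul]
  exact ⟨rfl, rfl⟩

theorem symm_rel (χ : Cut ε φ' →+* K) {y : C} (hy : φ' y = 0 ∧ ε y = 0) (hχ : χ (el y hy) ≠ 0)
    (c : C) {y1 y2 : C} (h1 : φ' y1 = 0 ∧ ε y1 = 0) (h2 : φ' y2 = 0 ∧ ε y2 = 0) :
    χ (el (c * y1) (left_mem c h1)) * χ (el y2 h2) = χ (el (c * y2) (left_mem c h2)) * χ (el y1 h1) := by
  apply mul_left_cancel₀ hχ
  have e1 : χ (el y hy) * (χ (el (c * y1) (left_mem c h1)) * χ (el y2 h2)) =
      χ (el (y * c) (right_mem c hy)) * χ (el y1 h1) * χ (el y2 h2) := by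
    rw [← map_mul, ← map_mul, ← map_mul, ← map_mul]
    congr 1
    apply Subtype.ext
    show y * (c * y1 * y2) = y * c * y1 * y2
    simp only [mul_assoc]
  have e2 : χ (el y hy) * (χ (el (c * y2) (left_mem c h2)) * χ (el y1 h1)) =
      χ (el (y * c) (right_mem c hy)) * χ (el y2 h2) * χ (el y1 h1) := by
    rw [← map_mul, ← map_mul, ← map_mul, ← map_mul]
    congr 1
    apply Subtype.ext
    show y * (c * y2 * y1) = y * c * y2 * y1
    simp only [mul_assoc]
  rw [e1, e2]
  ring

/-- extension of the character to the whole ring -/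
def psi (χ : Cut ε φ' →+* K) {y : C} (hy : φ' y = 0 ∧ ε y = 0)
    (hχ : χ (el y hy) = 1) : C →+* K where
  toFun c := χ (el (c * y) (left_mem c hy))
  map_one' := by
    have e : el (1 * y) (left_mem 1 hy) = el y hy := by
      apply Subtype.ext
      exact one_mul y
    rw [e, hχ]
  map_mul' c d := by
    have e1 := symm_rel χ hy (by rw [hχ]; exact one_ne_zero) c (left_mem d hy) hy
    have e2 : el (c * (d * y)) (left_mem c (left_mem d hy)) = el (c * d * y) (left_mem (c * d) hy) := by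
      apply Subtype.ext
      exact (mul_assoc c d y).symm
    rw [e2, hχ, mul_one] at e1
    exact e1
  map_zero' := by
    have e : el (0 * y) (left_mem 0 hy) = (0 : Cut ε φ') := by
      apply Subtype.ext
      exact zero_mul y
    rw [e, map_zero]
  map_add' c d := by
    have e : el ((c + d) * y) (left_mem (c + d) hy) =
        el (c * y) (left_mem c hy) + el (d * y) (left_mem d hy) := by
      apply Subtype.ext
      exact add_mul c d y
    rw [e, map_add]

end

theorem no_small {C : Type} [Ring C] (ε : C →+* ℤ) (hfg : FGen ε) (N : ℕ) :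
    ∃ (Q : Type) (_ : Ring Q) (_ : Finite Q) (φ : C →+* Q),
      ∀ (Q' : Type) [Ring Q'] (φ' : C →+* Q'), (∀ c, φ' c = 0 → φ c = 0) →
        ∀ (K : Type) [CommRing K] [IsDomain K] (χ : Cut ε φ' →+* K)
          (p : Polynomial K), p ≠ 0 → p.natDegree ≤ N →
          (∀ z, cutε ε φ' z = 0 → p.eval (χ z) = 0) →
          ∀ z, cutε ε φ' z = 0 → χ z = 0 := by
  classical
  obtain ⟨Q, i1, i2, φ, hφ⟩ := Pool.Agent.TH480.J749.small_all ε hfg N
  refine ⟨Q, i1, i2, φ, ?_⟩
  intro Q' _ φ' hle K _ _ χ p hp hN h z hz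
  by_contra hne
  have hroot : ∀ z, cutε ε φ' z = 0 → χ z ∈ p.roots.toFinset := by
    intro z hz
    rw [Multiset.mem_toFinset, Polynomial.mem_roots hp]
    exact h z hz
  have hcard : p.roots.toFinset.card ≤ N :=
    (Multiset.toFinset_card_le _).trans ((Polynomial.card_roots' _).trans hN)
  -- a power is one
  obtain ⟨k, hk0, hk⟩ : ∃ k, 0 < k ∧ χ z ^ k = 1 := by
    have hpow : ∀ i : ℕ, χ z ^ (i + 1) ∈ p.roots.toFinset := by
      intro i
      rw [← map_pow]
      apply hroot
      rw [map_pow, hz, zero_pow (by omega)]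
    obtain ⟨i, hi, j, hj, hij, he⟩ := Finset.exists_ne_map_eq_of_card_lt_of_maps_to
      (s := Finset.range (N + 1)) (t := p.roots.toFinset) (by rw [Finset.card_range]; omega)
      (f := fun i => χ z ^ (i + 1)) (fun i _ => hpow i)
    have key : ∀ i j : ℕ, i < j → χ z ^ (i + 1) = χ z ^ (j + 1) → ∃ k, 0 < k ∧ χ z ^ k = 1 := by
      intro i j hij he
      refine ⟨j - i, by omega, ?_⟩
      have h2 : χ z ^ (i + 1) * χ z ^ (j - i) = χ z ^ (i + 1) * 1 := by
        rw [← pow_add, mul_one, he]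
        congr 1
        omega
      exact mul_left_cancel₀ (pow_ne_zero _ hne) h2
    rcases lt_or_gt_of_ne hij with hlt | hlt
    · exact key i j hlt he
    · exact key j i hlt he.symm
  have hy0 : cutε ε φ' (z ^ k) = 0 := by rw [map_pow, hz, zero_pow (by omega)]
  have hy := of_cut hy0
  have hel : el (((z ^ k : Cut ε φ')) : C) hy = z ^ k := Subtype.ext rfl
  have hχ : χ (el (((z ^ k : Cut ε φ')) : C) hy) = 1 := by rw [hel, map_pow, hk]
  have hval : ∀ c : C, psi χ hy hχ c ∈ p.roots.toFinset := fun c =>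
    hroot (el (c * _) (left_mem c hy)) (left_mem c hy).2
  let D := (psi χ hy hχ).range
  have hinj : Function.Injective (fun t : D => (⟨t.1, by
      obtain ⟨c, hc⟩ := t.2
      rw [← hc]
      exact hval c⟩ : p.roots.toFinset)) := by
    intro t t' htt
    exact Subtype.ext (congrArg (fun s : p.roots.toFinset => (s : K)) htt)
  have hDfin : Finite D := Finite.of_injective _ hinj
  have hDcard : Nat.card D ≤ N := by
    refine (Nat.card_le_card_of_injective _ hinj).trans ?_
    rw [Nat.card_eq_fintype_card, Fintype.card_coe]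
    exact hcard
  have h1 := hφ D (psi χ hy hχ).rangeRestrict hDcard z (hle _ (of_cut hz).1)
  have h3 : psi χ hy hχ (z : C) = 0 := congrArg Subtype.val h1
  have h4 : psi χ hy hχ (z : C) = χ z := by
    have e : el ((z : C) * ((z ^ k : Cut ε φ') : C)) (left_mem (z : C) hy) = z * z ^ k :=
      Subtype.ext rfl
    change χ (el ((z : C) * ((z ^ k : Cut ε φ') : C)) (left_mem (z : C) hy)) = χ z
    rw [e, map_mul, map_pow, hk, mul_one]
  exact hne (h4.symm.trans h3)

end Pool.Agent.TH37.RZ.Ch
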