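import Pool.Agent.TH37.RF.Defs

/-!
Definitions for the project: locally residually finite varieties of rings (MP_8983b8_al, helper37).

Augmented rings `(C, ε)` (`C` unital, `ε : C →+* ℤ`) stand for the nonunital ring `ker ε`.
`commIdeal`, `NilpId`, `TT`, `zword`, `wd` are those of `Pool.Agent.TH37.RF.Defs`.
-/

set_option autoImplicit false

namespace Pool.Agent.TH37.RZ

open Pool.Agent.TH37.RF (commIdeal NilpId TT zword wd)

/-- The value of a polynomial in three noncommuting variables `x = 0`, `y = 1`, `z = 2`, given by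
its coefficients on words. -/
def ev3 {C : Type} [Ring C] (c : List (Fin 3) →₀ ℤ) (x y z : C) : C :=
  c.sum fun w a => a • (w.map ![x, y, z]).prod

/-- The shape of the identities we use: every word contains `x` and `y`; a word linear in `x` and
in `y` has the form `z ^ i x z ^ j y z ^ k`; and for every prime `p` some word `x z ^ n y` has a
coefficient not divisible by `p`. -/
structure Cond (c : List (Fin 3) →₀ ℤ) : Prop where
  two : ∀ w ∈ c.support, (0 : Fin 3) ∈ w ∧ (1 : Fin 3) ∈ w
  lin : ∀ w ∈ c.support, w.count 0 = 1 → w.count 1 = 1 →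
    ∃ i j k, w = List.replicate i 2 ++ 0 :: (List.replicate j 2 ++ 1 :: List.replicate k 2)
  piv : ∀ p : ℕ, p.Prime → ∃ n, ¬ (p : ℤ) ∣ c (0 :: (List.replicate n 2 ++ [1]))

/-- The augmentation ideal is a finitely generated ring: `C` is generated by finitely many
elements of `ker ε`. -/
def FGen {C : Type} [Ring C] (ε : C →+* ℤ) : Prop :=
  ∃ (r : ℕ) (b : Fin r → C), (∀ i, ε (b i) = 0) ∧ Subring.closure (Set.range b) = ⊤

/-- The identity `c` holds on the augmentation ideal. -/
def Ident {C : Type} [Ring C] (c : List (Fin 3) →₀ ℤ) (ε : C →+* ℤ) : Prop :=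
  ∀ x y z : C, ε x = 0 → ε y = 0 → ε z = 0 → ev3 c x y z = 0

/-- finitely generated, with nilpotent commutator ideal, satisfying `c` -/
structure Good {C : Type} [Ring C] (c : List (Fin 3) →₀ ℤ) (ε : C →+* ℤ) : Prop where
  fg : FGen ε
  nil : NilpId (commIdeal C)
  ident : Ident c ε

/-- `h` lies in every nonzero two-sided ideal contained in `ker ε`. -/
structure Mono {C : Type} [Ring C] (ε : C →+* ℤ) (h : C) : Prop where
  ne : h ≠ 0
  aug : ε h = 0
  mem : ∀ I : TwoSidedIdeal C, (∀ x ∈ I, ε x = 0) → I ≠ ⊥ → h ∈ I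

/-- `a` survives in a finite quotient -/
def Sep {C : Type} [Ring C] (a : C) : Prop :=
  ∃ (Q : Type) (_ : Ring Q) (_ : Finite Q) (φ : C →+* Q), φ a ≠ 0

/-- For `φ : C → Q` this is `ℤ + (ker φ ∩ ker ε)`. -/
def Cut {C Q : Type} [Ring C] [Ring Q] (ε : C →+* ℤ) (φ : C →+* Q) : Subring C :=
  RingHom.eqLocus φ ((Int.castRingHom Q).comp ε)

/-- the restriction of the augmentation -/
def cutε {C Q : Type} [Ring C] [Ring Q] (ε : C →+* ℤ) (φ : C →+* Q) : Cut ε φ →+* ℤ :=
  ε.comp (Cut ε φ).subtype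

/-- the polynomial `∑ α (0, n, 0) t ^ n` -/
noncomputable def pivPoly (α : ℕ × ℕ × ℕ →₀ ℤ) : Polynomial ℤ :=
  α.sum fun e a => if e.1 = 0 ∧ e.2.2 = 0 then Polynomial.monomial e.2.1 a else 0

end Pool.Agent.TH37.RZ
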