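import Pool.Agent.TH37.RZ.Asm1
import Pool.Agent.TH37.RZ.LemS5
import Pool.Agent.TH37.RF.Asm2

/-! Assembly, part 2: the core. -/

set_option autoImplicit false

namespace Pool.Agent.TH37.RZ

open Pool.Agent.TH37.RF (commIdeal NilpId TT zword wd zword_injective)

/-- the coefficients of the words `z ^ i x z ^ j y z ^ k` -/
noncomputable def alphaOf (c : List (Fin 3) →₀ ℤ) : ℕ × ℕ × ℕ →₀ ℤ :=
  c.comapDomain zword zword_injective.injOn

theorem alphaOf_apply (c : List (Fin 3) →₀ ℤ) (e : ℕ × ℕ × ℕ) :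
    alphaOf c e = c (zword e) := rfl

theorem alphaOf_piv (c : List (Fin 3) →₀ ℤ) (hc : Cond c) (p : ℕ) (hp : p.Prime) :
    ∃ n₀, ¬ (p : ℤ) ∣ alphaOf c (0, n₀, 0) := by
  obtain ⟨n, hn⟩ := hc.piv p hp
  refine ⟨n, ?_⟩
  rw [alphaOf_apply, zword]
  exact hn

theorem pivPoly_coeff (α : ℕ × ℕ × ℕ →₀ ℤ) (n : ℕ) :
    (pivPoly α).coeff n = α (0, n, 0) := by
  classical
  rw [pivPoly, Finsupp.sum, Polynomial.finsetSum_coeff]
  by_cases h : (0, n, 0) ∈ α.support
  · rw [Finset.sum_eq_single_of_mem _ h]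
    · rw [if_pos ⟨rfl, rfl⟩, Polynomial.coeff_monomial_same]
    · rintro ⟨a, b, c⟩ _ hne
      split_ifs with h1
      · obtain ⟨h2, h3⟩ := h1
        simp only at h2 h3
        subst h2 h3
        rw [Polynomial.coeff_monomial, if_neg]
        rintro rfl
        exact hne rfl
      · exact Polynomial.coeff_zero _
  · rw [Finsupp.notMem_support_iff.1 h]
    apply Finset.sum_eq_zero
    rintro ⟨a, b, c⟩ he
    split_ifs with h1
    · obtain ⟨h2, h3⟩ := h1
      simp only at h2 h3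
      subst h2 h3
      rw [Polynomial.coeff_monomial, if_neg]
      rintro rfl
      exact h he
    · exact Polynomial.coeff_zero _

/-- the pivot polynomial is nonzero over every domain -/
theorem pivPoly_map_ne (c : List (Fin 3) →₀ ℤ) (hc : Cond c) (K : Type) [CommRing K] [IsDomain K] :
    (pivPoly (alphaOf c)).map (Int.castRingHom K) ≠ 0 := by
  intro h0
  have h1 : ∀ n, ((alphaOf c (0, n, 0) : ℤ) : K) = 0 := by
    intro n
    have := congrArg (fun q => Polynomial.coeff q n) h0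
    rw [Polynomial.coeff_map, pivPoly_coeff, Polynomial.coeff_zero] at this
    exact this
  obtain ⟨p, hp⟩ := CharP.exists K
  rcases CharP.char_is_prime_or_zero K p with h | h
  · obtain ⟨n, hn⟩ := alphaOf_piv c hc p h
    exact hn ((CharP.intCast_eq_zero_iff K p _).1 (h1 n))
  · subst h
    obtain ⟨n, hn⟩ := alphaOf_piv c hc 2 Nat.prime_two
    apply hn
    have := (CharP.intCast_eq_zero_iff K 0 _).1 (h1 n)
    rw [Nat.cast_zero, zero_dvd_iff] at this
    rw [this]
    exact dvd_zero _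

section

variable {C : Type} [Ring C]

/-- nilpotent and finitely generated implies finitely generated as a group -/
theorem fg_of_words {r : ℕ} (b : Fin r → C)
    (hgen : Algebra.adjoin ℤ (Set.range b) = ⊤)
    (h : ∃ n, ∀ w : List (Fin r), n ≤ w.length → wd b w = 0) : Module.Finite ℤ C := by
  obtain ⟨n, hn⟩ := h
  have hfin : {w : List (Fin r) | w.length < n}.Finite := List.finite_length_lt (Fin r) n
  let S : Set C := wd b '' {w : List (Fin r) | w.length < n}
  have hS : S.Finite := hfin.image _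
  have h1 : Submodule.span ℤ S = ⊤ := by
    rw [eq_top_iff]
    intro x _
    have hx : x ∈ Algebra.adjoin ℤ (Set.range b) := by rw [hgen]; trivial
    rw [← Subalgebra.mem_toSubmodule, Algebra.adjoin_eq_span] at hx
    refine Submodule.span_le.2 ?_ hx
    intro y hy
    have h2 : ∃ w, y = wd b w := by
      induction hy using Submonoid.closure_induction with
      | mem y hy =>
        obtain ⟨i, rfl⟩ := hy
        exact ⟨[i], by simp [wd]⟩
      | one => exact ⟨[], by simp [wd]⟩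
      | mul y z _ _ hy hz =>
        obtain ⟨w, rfl⟩ := hy
        obtain ⟨w', rfl⟩ := hz
        exact ⟨w ++ w', by simp [wd]⟩
    obtain ⟨w, rfl⟩ := h2
    by_cases hw : w.length < n
    · exact Submodule.subset_span ⟨w, hw, rfl⟩
    · rw [hn w (not_lt.1 hw)]
      exact Submodule.zero_mem _
  exact ⟨⟨hS.toFinset, by rw [Set.Finite.coe_toFinset, h1]⟩⟩

/-- separation in rings with finitely generated additive group -/
theorem sep_of_fg [Module.Finite ℤ C] (h : C) (hne : h ≠ 0) (p : ℕ) (hp : p.Prime)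
    (hph : (p : ℤ) • h = 0) : Sep h := by
  have h1 : h ∉ (⨅ i : ℕ, (Ideal.span {(p : ℤ)}) ^ i • (⊤ : Submodule ℤ C)) := by
    rw [Ideal.mem_iInf_smul_pow_eq_bot_iff]
    rintro ⟨⟨r, hr⟩, hrh⟩
    rw [Ideal.mem_span_singleton] at hr
    obtain ⟨s, rfl⟩ := hr
    apply hne
    rw [← hrh]
    simp only
    rw [mul_comm, mul_smul, hph, smul_zero]
  rw [Submodule.mem_iInf] at h1
  push Not at h1
  obtain ⟨k, hk⟩ := h1
  let I : Ideal C := Ideal.span {((p : C) ^ k)}
  have hcomm : ∀ c : C, (p : C) ^ k * c = c * (p : C) ^ k := by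
    intro c
    rw [← Nat.cast_pow]
    exact Nat.cast_commute _ _
  have hI : ∀ x, x ∈ I ↔ ∃ y, x = y * (p : C) ^ k := by
    intro x
    rw [Ideal.mem_span_singleton']
    exact exists_congr fun y => eq_comm
  have hI2 : I.IsTwoSided := by
    constructor
    intro a b ha
    rw [hI] at ha ⊢
    obtain ⟨y, rfl⟩ := ha
    exact ⟨y * b, by rw [mul_assoc, hcomm, mul_assoc]⟩
  have hfin : Finite (C ⧸ I) := by
    have h2 : Module.Finite ℤ (C ⧸ I) :=
      Module.Finite.of_surjective (Ideal.Quotient.mk I).toAddMonoidHom.toIntLinearMap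
        Ideal.Quotient.mk_surjective
    apply Module.finite_of_fg_torsion
    intro x
    obtain ⟨x, rfl⟩ := Ideal.Quotient.mk_surjective x
    have hp0 : ((p : ℤ) ^ k) ≠ 0 := pow_ne_zero _ (by exact_mod_cast hp.ne_zero)
    refine ⟨⟨(p : ℤ) ^ k, mem_nonZeroDivisors_of_ne_zero hp0⟩, ?_⟩
    change ((p : ℤ) ^ k) • (Ideal.Quotient.mk I x) = 0
    rw [← map_zsmul, Ideal.Quotient.eq_zero_iff_mem, hI]
    refine ⟨x, ?_⟩
    rw [zsmul_eq_mul]
    push_cast
    exact hcomm x
  refine ⟨C ⧸ I, inferInstance, hfin, Ideal.Quotient.mk I, ?_⟩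
  intro h0
  rw [Ideal.Quotient.eq_zero_iff_mem, hI] at h0
  obtain ⟨y, rfl⟩ := h0
  apply hk
  rw [Ideal.span_singleton_pow]
  have e : y * (p : C) ^ k = ((p : ℤ) ^ k) • y := by
    rw [zsmul_eq_mul]
    push_cast
    exact (hcomm y).symm
  rw [e]
  exact Submodule.smul_mem_smul (Ideal.mem_span_singleton_self _) trivial

/-- the heart is killed by a prime number -/
theorem exists_prime (ε : C →+* ℤ) (h : C) (hm : Mono ε h)
    (hh : ∀ z, ε z = 0 → z * h = 0 ∧ h * z = 0) : ∃ p : ℕ, p.Prime ∧ (p : ℤ) • h = 0 := by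
  have hl : ∀ c, c * h = ε c • h := by
    intro c
    have h1 := (hh (c - (ε c : C)) (by simp)).1
    rw [sub_mul, sub_eq_zero] at h1
    rw [h1, zsmul_eq_mul]
  have hr : ∀ c, h * c = ε c • h := by
    intro c
    have h1 := (hh (c - (ε c : C)) (by simp)).2
    rw [mul_sub, sub_eq_zero] at h1
    rw [h1, zsmul_eq_mul]
    exact (Int.cast_commute _ _).symm
  have key : ∀ n : ℤ, n • h ≠ 0 → ∃ m : ℤ, (m * n) • h = h := by
    intro n hn
    let I : TwoSidedIdeal C := TwoSidedIdeal.mk' {x | ∃ m : ℤ, x = (m * n) • h}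
      ⟨0, by rw [zero_mul, zero_smul]⟩
      (by
        rintro _ _ ⟨m, rfl⟩ ⟨m', rfl⟩
        exact ⟨m + m', by rw [add_mul, add_smul]⟩)
      (by
        rintro _ ⟨m, rfl⟩
        exact ⟨-m, by rw [neg_mul, neg_smul]⟩)
      (by
        rintro c _ ⟨m, rfl⟩
        exact ⟨m * ε c, by
          rw [mul_smul_comm, hl, smul_smul]
          congr 1
          ring⟩)
      (by
        rintro _ c ⟨m, rfl⟩
        exact ⟨m * ε c, by
          rw [smul_mul_assoc, hr, smul_smul]
          congr 1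
          ring⟩)
    have hI : ∀ x, x ∈ I ↔ ∃ m : ℤ, x = (m * n) • h := fun x => TwoSidedIdeal.mem_mk' _ _ _ _ _ _ x
    have h1 : h ∈ I := by
      apply hm.mem
      · intro x hx
        obtain ⟨m, rfl⟩ := (hI x).1 hx
        rw [map_zsmul, hm.aug, smul_zero]
      · intro h0
        apply hn
        have h2 : n • h ∈ I := (hI _).2 ⟨1, by rw [one_mul]⟩
        rw [h0, TwoSidedIdeal.mem_bot] at h2
        exact h2
    obtain ⟨m, hm'⟩ := (hI h).1 h1
    exact ⟨m, hm'.symm⟩
  by_cases h2 : (2 : ℤ) • h = 0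
  · exact ⟨2, Nat.prime_two, h2⟩
  obtain ⟨m, hm2⟩ := key 2 h2
  have hfo : IsOfFinAddOrder h := by
    rw [isOfFinAddOrder_iff_zsmul_eq_zero]
    refine ⟨m * 2 - 1, by omega, ?_⟩
    rw [sub_smul, hm2, one_smul, sub_self]
  have hN : 0 < addOrderOf h := hfo.addOrderOf_pos
  have hN1 : addOrderOf h ≠ 1 := by
    rw [Ne, AddMonoid.addOrderOf_eq_one_iff]
    exact hm.ne
  obtain ⟨p, hp, q, hq⟩ := Nat.exists_prime_and_dvd hN1
  refine ⟨p, hp, ?_⟩
  have hq0 : (q : ℤ) • h ≠ 0 := by
    intro h0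
    rw [natCast_zsmul] at h0
    have h3 : addOrderOf h ∣ q := addOrderOf_dvd_iff_nsmul_eq_zero.2 h0
    have h4 : 0 < q := by
      rcases Nat.eq_zero_or_pos q with h5 | h5
      · rw [h5, mul_zero] at hq
        omega
      · exact h5
    have h5 := Nat.le_of_dvd h4 h3
    rw [hq] at h5
    have h6 := hp.two_le
    nlinarith
  obtain ⟨m', hm'⟩ := key q hq0
  rw [← hm', smul_smul]
  have e : (p : ℤ) * (m' * q) = m' * (addOrderOf h : ℤ) := by
    rw [hq]
    push_cast
    ring
  rw [e, mul_smul, natCast_zsmul, addOrderOf_nsmul_eq_zero, smul_zero]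

end

end Pool.Agent.TH37.RZ
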