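import Pool.Agent.TH37.RZ.Asm2
import Pool.Agent.TH858.RZ_CORE
import Pool.Agent.TH480.J752
import Pool.Agent.TH480.J753
import Pool.Agent.TH73.RZ_CUTFG

/-! Assembly, part 3: good rings are residually finite. -/

set_option autoImplicit false

namespace Pool.Agent.TH37.RZ

open Pool.Agent.TH37.RF (commIdeal NilpId TT zword wd zword_injective)

/-- statement of job ANN -/
def AnnStmt : Prop := ∀ (C : Type) [Ring C] (ε : C →+* ℤ) (_ : FGen ε)
    (_ : NilpId (commIdeal C)) (h : C) (_ : Mono ε h),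
    ∃ (Q : Type) (_ : Ring Q) (_ : Finite Q) (φ : C →+* Q),
      ∀ b, φ b = 0 → b * h = 0 ∧ h * b = 0

/-- statement of job CHAR -/
def CharStmt : Prop := ∀ (C : Type) [Ring C] (ε : C →+* ℤ) (_ : FGen ε) (N : ℕ),
    ∃ (Q : Type) (_ : Ring Q) (_ : Finite Q) (φ : C →+* Q),
      ∀ (Q' : Type) [Ring Q'] (φ' : C →+* Q'), (∀ c, φ' c = 0 → φ c = 0) →
        ∀ (K : Type) [CommRing K] [IsDomain K] (χ : Cut ε φ' →+* K)
          (p : Polynomial K), p ≠ 0 → p.natDegree ≤ N →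
          (∀ z, cutε ε φ' z = 0 → p.eval (χ z) = 0) →
          ∀ z, cutε ε φ' z = 0 → χ z = 0

section

variable {C : Type} [Ring C]

theorem adjoin_of_closure {r : ℕ} (b : Fin r → C) (hgen : Subring.closure (Set.range b) = ⊤) :
    Algebra.adjoin ℤ (Set.range b) = ⊤ := by
  rw [eq_top_iff]
  intro x _
  have h1 : Subring.closure (Set.range b) ≤ (Algebra.adjoin ℤ (Set.range b)).toSubring := by
    rw [Subring.closure_le]
    exact Algebra.subset_adjoin
  have hx : x ∈ Subring.closure (Set.range b) := by rw [hgen]; trivial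
  exact h1 hx

theorem core (ε : C →+* ℤ) (c : List (Fin 3) →₀ ℤ) (hc : Cond c) (hG : Good c ε)
    (h : C) (hm : Mono ε h) (hh : ∀ z, ε z = 0 → z * h = 0 ∧ h * z = 0)
    (hsmall : ∀ (K : Type) [CommRing K] [IsDomain K] (χ : C →+* K),
      (∀ z, ε z = 0 → ((pivPoly (alphaOf c)).map (Int.castRingHom K)).eval (χ z) = 0) →
      ∀ z, ε z = 0 → χ z = 0) :
    Sep h := by
  obtain ⟨r, b, hb, hgen⟩ := hG.fg
  obtain ⟨p, hp, hph⟩ := exists_prime ε h hm hh
  obtain ⟨n₀, hn₀⟩ := alphaOf_piv c hc p hp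
  have : Fact p.Prime := ⟨hp⟩
  have hmax : (Ideal.span {(p : ℤ)}).IsMaximal := Int.ideal_span_isMaximal_of_prime p
  have hn₀' : alphaOf c (0, n₀, 0) ∉ Ideal.span {(p : ℤ)} := by
    rw [Ideal.mem_span_singleton]
    exact hn₀
  have hgen' := adjoin_of_closure b hgen
  have hmF : MonoF ε.toIntAlgHom h := ⟨hm.ne, hm.aug, hm.mem⟩
  have hw := Pool.Agent.TH858.RZCore.core_words ε r b hb hgen hG.nil c hc hG.ident (alphaOf c)
    (alphaOf_apply c) (by
      intro k x hk hx h1 h2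
      refine lemSF ε.toIntAlgHom r b hb hgen' h hmF (fun i => hh _ (hb i))
        (Ideal.span {(p : ℤ)}) ?_ hmax (alphaOf c) n₀ hn₀' ?_ k hk x hx h1 h2
      · intro a ha
        rw [Ideal.mem_span_singleton] at ha
        obtain ⟨s, rfl⟩ := ha
        rw [mul_comm, mul_smul, hph, smul_zero]
      · intro K _ _ iA χ hχ z hz
        refine hsmall K (χ : C →+* K) ?_ z hz
        intro z' hz'
        have h3 := hχ z' hz'
        rw [Polynomial.aeval_def, Subsingleton.elim (algebraMap ℤ K) (Int.castRingHom K),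
          ← Polynomial.eval_map] at h3
        exact h3)
  have hfin := fg_of_words b hgen' hw
  exact sep_of_fg h hm.ne p hp hph

theorem sep_map {C' : Type} [Ring C'] (π : C →+* C') (a : C) (h : Sep (π a)) : Sep a := by
  obtain ⟨Q, iQ, iF, φ, hφ⟩ := h
  exact ⟨Q, iQ, iF, φ.comp π, hφ⟩

theorem mem_cut {Q : Type} [Ring Q] (ε : C →+* ℤ) (φ : C →+* Q)
    (z : Cut ε φ) (hz : cutε ε φ z = 0) : φ (z : C) = 0 := by
  have h1 : φ (z : C) = (Int.castRingHom Q) (ε (z : C)) := z.2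
  have h2 : ε (z : C) = 0 := hz
  rw [h1, h2, map_zero]

theorem good_sep_mono (hann : AnnStmt) (hchar : CharStmt) (ε : C →+* ℤ) (c : List (Fin 3) →₀ ℤ)
    (hc : Cond c) (hG : Good c ε) (a : C) (hm : Mono ε a) : Sep a := by
  obtain ⟨Q1, iR1, iF1, φ1, hφ1⟩ := hann C ε hG.fg hG.nil a hm
  obtain ⟨Q2, iR2, iF2, φ2, hφ2⟩ := hchar C ε hG.fg
    (pivPoly (alphaOf c)).natDegree
  let φ : C →+* Q1 × Q2 := φ1.prod φ2
  have hp : ∀ x, φ x = (φ1 x, φ2 x) := fun x => rfl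
  by_cases h0 : φ a = 0
  swap
  · exact ⟨Q1 × Q2, inferInstance, inferInstance, φ, h0⟩
  have haC : a ∈ Cut ε φ := by
    change φ a = (Int.castRingHom _) (ε a)
    rw [h0, hm.aug, map_zero]
  have haε : cutε ε φ ⟨a, haC⟩ = 0 := hm.aug
  have hGC : Good c (cutε ε φ) :=
    ⟨Pool.Agent.TH73.RZCUTFG.cut_fg ε hG.fg φ,
      nilp_inj (Cut ε φ).subtype Subtype.val_injective hG.nil,
      ident_inj c ε (cutε ε φ) (Cut ε φ).subtype Subtype.val_injective (fun x => rfl) hG.ident⟩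
  refine Pool.Agent.TH480.J752.sep_of_cut ε φ ⟨a, haC⟩ haε ?_
  obtain ⟨C2, iR, ε2, π2, hπ2, hε2, hm2⟩ := Pool.Agent.TH480.J753.exists_mono (cutε ε φ)
    (⟨a, haC⟩ : Cut ε φ) (fun h => hm.ne (congrArg Subtype.val h)) haε
  have hG2 : Good c ε2 := good_map c (cutε ε φ) ε2 π2 hπ2 hε2 hGC
  apply sep_map π2
  apply core ε2 c hc hG2 _ hm2
  · intro z hz
    obtain ⟨z, rfl⟩ := hπ2 z
    rw [hε2] at hz
    have h1 := mem_cut ε φ z hz
    rw [hp, Prod.mk_eq_zero] at h1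
    obtain ⟨h2, h3⟩ := hφ1 _ h1.1
    rw [← map_mul, ← map_mul]
    constructor
    · have e1 : z * (⟨a, haC⟩ : Cut ε φ) = 0 := Subtype.ext h2
      rw [e1, map_zero]
    · have e1 : (⟨a, haC⟩ : Cut ε φ) * z = 0 := Subtype.ext h3
      rw [e1, map_zero]
  · intro K _ _ χ hχ z hz
    obtain ⟨z, rfl⟩ := hπ2 z
    rw [hε2] at hz
    refine hφ2 (Q1 × Q2) φ ?_ K (χ.comp π2) ((pivPoly (alphaOf c)).map (Int.castRingHom K))
      (pivPoly_map_ne c hc K) Polynomial.natDegree_map_le ?_ z hz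
    · intro x hx
      rw [hp, Prod.mk_eq_zero] at hx
      exact hx.2
    · intro z' hz'
      exact hχ (π2 z') (by rw [hε2, hz'])

theorem good_sep (hann : AnnStmt) (hchar : CharStmt) (ε : C →+* ℤ) (c : List (Fin 3) →₀ ℤ)
    (hc : Cond c) (hG : Good c ε) (a : C) (ha : a ≠ 0) (hεa : ε a = 0) : Sep a := by
  obtain ⟨C1, iR, ε1, π1, hπ1, hε1, hm1⟩ := Pool.Agent.TH480.J753.exists_mono ε a ha hεa
  exact sep_map π1 a (good_sep_mono hann hchar ε1 c hc (good_map c ε ε1 π1 hπ1 hε1 hG) (π1 a) hm1)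

end

end Pool.Agent.TH37.RZ
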