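import Pool.Agent.TH37.RZ.Asm1
import Pool.Agent.TH37.RF.Asm4
import Pool.Agent.TH142.RZ.SH2
import Pool.Agent.TH858.RZ_BOUND
import Pool.Agent.TH480.J749
import Pool.Agent.TH73.RZ_CUTFG

/-! Assembly, part 4: a subring of the form Cut is good. -/

set_option autoImplicit false

namespace Pool.Agent.TH37.RZ

open Pool.Agent.TH37.RF (commIdeal NilpId TT zword wd)
open Pool.Agent.H854R3.CR (PIOn)

/-- statement of job DETECT -/
def DetectStmt : Prop := ∀ (C : Type) [Ring C] (ε : C →+* ℤ) (_ : FGen ε)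
    (_ : PIOn {x : C | ε x = 0}) (β : C) (_ : ε β = 0) (_ : ∀ k, β ^ k ≠ 0),
    ∃ (n : ℕ) (D : Type) (_ : Field D) (_ : Finite D)
      (ψ : C →+* Matrix (Fin n) (Fin n) D), Function.Surjective ψ ∧ ψ β ≠ 0

/-- statement of job UNIT -/
def UnitStmt : Prop := ∀ (C : Type) [Ring C] (B : AddSubgroup C) (c : List (Fin 3) →₀ ℤ)
    (_ : ∀ p : ℕ, p.Prime → ∃ w, ¬ (p : ℤ) ∣ c w)
    (_ : ∀ x ∈ B, ∀ y ∈ B, ∀ z ∈ B, ev3 c x y z = 0),
    ∃ (d : ℕ) (nn : Equiv.Perm (Fin d) → ℤ), nn 1 = 1 ∧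
      ∀ a : Fin d → C, (∀ i, a i ∈ B) →
        ∑ τ, nn τ • (List.ofFn fun k => a (τ k)).prod = 0

section

variable {C : Type} [Ring C]

theorem exists_unit (hunit : UnitStmt) (ε : C →+* ℤ) (c : List (Fin 3) →₀ ℤ) (hc : Cond c)
    (hid : Ident c ε) :
    ∃ (d : ℕ) (nn : Equiv.Perm (Fin d) → ℤ), nn 1 = 1 ∧
      ∀ a : Fin d → C, (∀ i, ε (a i) = 0) →
        ∑ τ, nn τ • (List.ofFn fun k => a (τ k)).prod = 0 := by
  obtain ⟨d, nn, h1, h2⟩ := hunit C ε.toAddMonoidHom.ker c
    (fun p hp => by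
      obtain ⟨n, hn⟩ := hc.piv p hp
      exact ⟨_, hn⟩)
    (fun x hx y hy z hz => hid x y z hx hy hz)
  exact ⟨d, nn, h1, fun a ha => h2 a ha⟩

theorem mat_top (ε : C →+* ℤ) {n : ℕ} {D : Type} [Field D]
    (ψ : C →+* Matrix (Fin n) (Fin n) D) (hψ : Function.Surjective ψ) (β : C) (hβ : ε β = 0)
    (hψβ : ψ β ≠ 0) (M : Matrix (Fin n) (Fin n) D) : ∃ x, ε x = 0 ∧ ψ x = M := by
  have hne : Nonempty (Fin n) := by
    by_contra h
    rw [not_nonempty_iff] at h
    apply hψβ
    ext i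
    exact h.elim i
  let I : TwoSidedIdeal (Matrix (Fin n) (Fin n) D) := TwoSidedIdeal.mk' {M | ∃ x, ε x = 0 ∧ ψ x = M}
    ⟨0, map_zero _, map_zero _⟩
    (by
      rintro _ _ ⟨u, hu, rfl⟩ ⟨v, hv, rfl⟩
      exact ⟨u + v, by rw [map_add, hu, hv, add_zero], map_add _ _ _⟩)
    (by
      rintro _ ⟨u, hu, rfl⟩
      exact ⟨-u, by rw [map_neg, hu, neg_zero], map_neg _ _⟩)
    (by
      rintro c _ ⟨u, hu, rfl⟩
      obtain ⟨c, rfl⟩ := hψ c
      exact ⟨c * u, by rw [map_mul, hu, mul_zero], map_mul _ _ _⟩)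
    (by
      rintro _ c ⟨u, hu, rfl⟩
      obtain ⟨c, rfl⟩ := hψ c
      exact ⟨u * c, by rw [map_mul, hu, zero_mul], map_mul _ _ _⟩)
  have hI : ∀ M, M ∈ I ↔ ∃ x, ε x = 0 ∧ ψ x = M :=
    fun x => TwoSidedIdeal.mem_mk' _ _ _ _ _ _ x
  rcases eq_bot_or_eq_top I with h | h
  · exfalso
    apply hψβ
    have h1 : ψ β ∈ I := (hI _).2 ⟨β, hβ, rfl⟩
    rw [h, TwoSidedIdeal.mem_bot] at h1
    exact h1
  · rw [← hI, h]
    trivial

theorem two_le {n : ℕ} {D : Type} [Field D]
    (ψ : C →+* Matrix (Fin n) (Fin n) D) (β : C) (hβ : β ∈ commIdeal C)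
    (hψβ : ψ β ≠ 0) : 2 ≤ n := by
  by_contra hn
  have hs : Subsingleton (Fin n) := by
    have : n = 0 ∨ n = 1 := by omega
    rcases this with rfl | rfl <;> infer_instance
  have hcomm : ∀ M N : Matrix (Fin n) (Fin n) D, M * N = N * M := by
    intro M N
    ext i j
    rw [Matrix.mul_apply, Matrix.mul_apply, Fintype.sum_subsingleton _ i,
      Fintype.sum_subsingleton _ i, Subsingleton.elim j i, mul_comm]
  apply hψβ
  have h1 := commIdeal_image ψ β hβ
  have h2 : commIdeal (Matrix (Fin n) (Fin n) D) ≤ ⊥ := by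
    rw [commIdeal, TwoSidedIdeal.span_le]
    rintro _ ⟨u, v, rfl⟩
    rw [hcomm, sub_self]
    exact TwoSidedIdeal.zero_mem _
  exact (TwoSidedIdeal.mem_bot _).1 (h2 h1)

theorem card_mat_le {n d d0 : ℕ} {D : Type} [Field D] [Finite D] (hn : n ≤ d)
    (h : Nat.card D ≤ d0) : Nat.card (Matrix (Fin n) (Fin n) D) ≤ d0 ^ (d * d) := by
  have h1 : Nat.card (Matrix (Fin n) (Fin n) D) = Nat.card D ^ (n * n) := by
    have e : Nat.card (Matrix (Fin n) (Fin n) D) = Nat.card (Fin n → Fin n → D) := rfl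
    rw [e, Nat.card_fun, Nat.card_fun, Nat.card_fin, ← pow_mul]
  rw [h1]
  have hD : 0 < Nat.card D := Nat.card_pos
  calc Nat.card D ^ (n * n) ≤ d0 ^ (n * n) := Nat.pow_le_pow_left h _
    _ ≤ d0 ^ (d * d) := Nat.pow_le_pow_right (by omega) (Nat.mul_le_mul hn hn)

theorem exists_nil (hunit : UnitStmt) (hdet : DetectStmt) (ε : C →+* ℤ) (hfg : FGen ε)
    (c : List (Fin 3) →₀ ℤ) (hc : Cond c) (hid : Ident c ε) :
    ∃ (Q : Type) (_ : Ring Q) (_ : Finite Q) (φ : C →+* Q),
      ∀ β, ε β = 0 → φ β = 0 → β ∈ commIdeal C → IsNilpotent β := by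
  obtain ⟨d, e, he, hlin⟩ := exists_unit hunit ε c hc hid
  obtain ⟨d0, hd0⟩ := Pool.Agent.TH858.RZ.bound_card c hc
  obtain ⟨Q, iR, iF, φ, hφ⟩ := Pool.Agent.TH480.J749.small_all ε hfg (d0 ^ (d * d))
  refine ⟨Q, iR, iF, φ, fun β hβ hφβ hcβ => ?_⟩
  by_contra hn
  have hPI : PIOn {x : C | ε x = 0} := ⟨d, e, 1, he, fun a ha => hlin a ha⟩
  obtain ⟨n, D, iD, iDF, ψ, hψ, hψβ⟩ := hdet C ε hfg hPI β hβ (fun k hk => hn ⟨k, hk⟩)
  have hn2 : 2 ≤ n := two_le ψ β hcβ hψβ
  have htop := mat_top ε ψ hψ β hβ hψβ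
  have hcard : Nat.card D ≤ d0 := hd0 n D hn2 (by
    intro x y z
    obtain ⟨x, hx, rfl⟩ := htop x
    obtain ⟨y, hy, rfl⟩ := htop y
    obtain ⟨z, hz, rfl⟩ := htop z
    rw [← ev3_map, hid x y z hx hy hz, map_zero])
  have hsize : n ≤ d := Pool.Agent.TH858.RF.bound_size (F := D) (D := D) n d
    (fun τ => (e τ : D)) (by rw [he, Int.cast_one]) (by
    intro a
    choose a' ha' haa' using fun i => htop (a i)
    have h1 := congrArg ψ (hlin a' ha')
    rw [map_zero, map_sum] at h1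
    rw [← h1]
    refine Finset.sum_congr rfl fun τ _ => ?_
    rw [map_zsmul, map_list_prod, List.map_ofFn, Int.cast_smul_eq_zsmul]
    congr 3
    funext k
    exact (haa' _).symm)
  exact hψβ (hφ (Matrix (Fin n) (Fin n) D) ψ (card_mat_le hsize hcard) β hφβ)

end

section words

variable {C : Type} [Ring C]

/-- letters: the generators and their commutators -/
def vv {s : ℕ} (b : Fin s → C) : Fin s ⊕ (Fin s × Fin s) → C :=
  Sum.elim b fun p => b p.1 * b p.2 - b p.2 * b p.1

/-- marked letters: the commutators -/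
def mk {s : ℕ} : Fin s ⊕ (Fin s × Fin s) → Bool := Sum.elim (fun _ => false) fun _ => true

theorem wd_append {Λ : Type} (v : Λ → C) (w w' : List Λ) : wd v (w ++ w') = wd v w * wd v w' := by
  simp [wd]

/-- span of the words with at least `j` marked letters -/
def PP {s : ℕ} (b : Fin s → C) (j : ℕ) : AddSubgroup C :=
  AddSubgroup.closure {x | ∃ w : List (Fin s ⊕ (Fin s × Fin s)), j ≤ w.countP mk ∧
    wd (vv b) w = x}

theorem PP_mul {s : ℕ} (b : Fin s → C) (i j : ℕ) (x y : C) (hx : x ∈ PP b i) (hy : y ∈ PP b j) :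
    x * y ∈ PP b (i + j) := by
  induction hx using AddSubgroup.closure_induction with
  | mem x hx =>
    obtain ⟨w, hw, rfl⟩ := hx
    induction hy using AddSubgroup.closure_induction with
    | mem y hy =>
      obtain ⟨w', hw', rfl⟩ := hy
      refine AddSubgroup.subset_closure ⟨w ++ w', ?_, wd_append _ _ _⟩
      rw [List.countP_append]
      omega
    | zero => rw [mul_zero]; exact AddSubgroup.zero_mem _
    | add y z _ _ hy hz => rw [mul_add]; exact AddSubgroup.add_mem _ hy hz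
    | neg y _ hy => rw [mul_neg]; exact AddSubgroup.neg_mem _ hy
  | zero => rw [zero_mul]; exact AddSubgroup.zero_mem _
  | add y z _ _ hy hz => rw [add_mul]; exact AddSubgroup.add_mem _ hy hz
  | neg y _ hy => rw [neg_mul]; exact AddSubgroup.neg_mem _ hy

theorem PP_zero {s : ℕ} (b : Fin s → C) (hgen : Subring.closure (Set.range b) = ⊤) (x : C) :
    x ∈ PP b 0 := by
  have hx : x ∈ Subring.closure (Set.range b) := by rw [hgen]; trivial
  induction hx using Subring.closure_induction with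
  | mem x hx =>
    obtain ⟨i, rfl⟩ := hx
    exact AddSubgroup.subset_closure ⟨[Sum.inl i], Nat.zero_le _, by simp [wd, vv]⟩
  | zero => exact AddSubgroup.zero_mem _
  | one => exact AddSubgroup.subset_closure ⟨[], Nat.zero_le _, by simp [wd]⟩
  | add x y _ _ hx hy => exact AddSubgroup.add_mem _ hx hy
  | neg x _ hx => exact AddSubgroup.neg_mem _ hx
  | mul x y _ _ hx hy => exact PP_mul b 0 0 x y hx hy

theorem comm_PP {s : ℕ} (b : Fin s → C) (hgen : Subring.closure (Set.range b) = ⊤) (x : C)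
    (hx : x ∈ commIdeal C) : x ∈ PP b 1 := by
  let I : TwoSidedIdeal C := TwoSidedIdeal.mk' (PP b 1 : Set C)
    (PP b 1).zero_mem
    (fun hx hy => (PP b 1).add_mem hx hy)
    (fun hx => (PP b 1).neg_mem hx)
    (by
      intro x y hy
      have := PP_mul b 0 1 x y (PP_zero b hgen x) hy
      rwa [Nat.zero_add] at this)
    (by
      intro x y hx
      have := PP_mul b 1 0 x y hx (PP_zero b hgen y)
      exact this)
  have hI : ∀ x, x ∈ I ↔ x ∈ PP b 1 := fun x => TwoSidedIdeal.mem_mk' _ _ _ _ _ _ x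
  have h1 : ∀ i (v : C), b i * v - v * b i ∈ I := by
    intro i v
    have hv : v ∈ Subring.closure (Set.range b) := by rw [hgen]; trivial
    induction hv using Subring.closure_induction with
    | mem v hv =>
      obtain ⟨j, rfl⟩ := hv
      rw [hI]
      exact AddSubgroup.subset_closure ⟨[Sum.inr (i, j)], by simp [mk], by simp [wd, vv]⟩
    | zero => rw [mul_zero, zero_mul, sub_self]; exact I.zero_mem
    | one => rw [mul_one, one_mul, sub_self]; exact I.zero_mem
    | add x y _ _ hx hy =>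
      have : b i * (x + y) - (x + y) * b i = (b i * x - x * b i) + (b i * y - y * b i) := by
        noncomm_ring
      rw [this]
      exact I.add_mem hx hy
    | neg x _ hx =>
      have : b i * (-x) - (-x) * b i = -(b i * x - x * b i) := by noncomm_ring
      rw [this]
      exact I.neg_mem hx
    | mul x y _ _ hx hy =>
      have : b i * (x * y) - (x * y) * b i = (b i * x - x * b i) * y + x * (b i * y - y * b i) := by
        noncomm_ring
      rw [this]
      exact I.add_mem (I.mul_mem_right _ _ hx) (I.mul_mem_left _ _ hy)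
  have h2 : ∀ u v : C, u * v - v * u ∈ I := by
    intro u v
    have hu : u ∈ Subring.closure (Set.range b) := by rw [hgen]; trivial
    induction hu using Subring.closure_induction with
    | mem u hu =>
      obtain ⟨j, rfl⟩ := hu
      exact h1 j v
    | zero => rw [mul_zero, zero_mul, sub_self]; exact I.zero_mem
    | one => rw [mul_one, one_mul, sub_self]; exact I.zero_mem
    | add x y _ _ hx hy =>
      have : (x + y) * v - v * (x + y) = (x * v - v * x) + (y * v - v * y) := by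
        noncomm_ring
      rw [this]
      exact I.add_mem hx hy
    | neg x _ hx =>
      have : (-x) * v - v * (-x) = -(x * v - v * x) := by noncomm_ring
      rw [this]
      exact I.neg_mem hx
    | mul x y _ _ hx hy =>
      have : (x * y) * v - v * (x * y) = (x * v - v * x) * y + x * (y * v - v * y) := by
        noncomm_ring
      rw [this]
      exact I.add_mem (I.mul_mem_right _ _ hx) (I.mul_mem_left _ _ hy)
  have h3 : commIdeal C ≤ I := by
    rw [commIdeal, TwoSidedIdeal.span_le]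
    rintro _ ⟨u, v, rfl⟩
    exact h2 u v
  exact (hI x).1 (h3 hx)

theorem nilp_of_words {s : ℕ} (b : Fin s → C) (hgen : Subring.closure (Set.range b) = ⊤)
    (h : ∃ M : ℕ, ∀ l : List (Fin s ⊕ (Fin s × Fin s)), M ≤ l.countP mk → wd (vv b) l = 0) :
    NilpId (commIdeal C) := by
  obtain ⟨M, hM⟩ := h
  refine ⟨M, fun x hx => ?_⟩
  have h1 : ∀ l : List C, (∀ y ∈ l, y ∈ PP b 1) → l.prod ∈ PP b l.length := by
    intro l
    induction l with
    | nil => intro _; exact PP_zero b hgen _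
    | cons a l ih =>
      intro hl
      rw [List.prod_cons, List.length_cons, Nat.add_comm]
      exact PP_mul b 1 l.length _ _ (hl a (by simp)) (ih fun y hy => hl y (by simp [hy]))
  have h2 := h1 (List.ofFn x) (by
    intro y hy
    rw [List.mem_ofFn] at hy
    obtain ⟨i, rfl⟩ := hy
    exact comm_PP b hgen _ (hx i))
  rw [List.length_ofFn] at h2
  have h3 : PP b M ≤ ⊥ := by
    rw [PP, AddSubgroup.closure_le]
    rintro _ ⟨w, hw, rfl⟩
    exact hM w hw
  exact AddSubgroup.mem_bot.1 (h3 h2)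

end words

section

variable {C : Type} [Ring C]

theorem to_good (hunit : UnitStmt) (hdet : DetectStmt) (ε : C →+* ℤ) (hfg : FGen ε)
    (c : List (Fin 3) →₀ ℤ) (hc : Cond c) (hid : Ident c ε) :
    ∃ (Q : Type) (_ : Ring Q) (_ : Finite Q) (φ : C →+* Q),
      Good c (cutε ε φ) := by
  obtain ⟨Q, iR, iF, φ, hφ⟩ := exists_nil hunit hdet ε hfg c hc hid
  refine ⟨Q, iR, iF, φ, ?_⟩
  have hfg' := Pool.Agent.TH73.RZCUTFG.cut_fg ε hfg φ
  have hid' := ident_inj c ε (cutε ε φ) (Cut ε φ).subtype Subtype.val_injective (fun x => rfl) hid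
  refine ⟨hfg', ?_, hid'⟩
  obtain ⟨s, b, hb, hgen⟩ := hfg'
  apply nilp_of_words b hgen
  obtain ⟨d, e, he, hlin⟩ := exists_unit hunit (cutε ε φ) c hc hid'
  have hv : ∀ i, cutε ε φ (vv b i) = 0 := by
    rintro (i | ⟨i, j⟩)
    · exact hb i
    · change cutε ε φ (b i * b j - b j * b i) = 0
      rw [map_sub, map_mul, map_mul, hb, zero_mul, mul_comm, zero_mul, sub_self]
  have haug : ∀ w : List (Fin s ⊕ (Fin s × Fin s)), w ≠ [] → cutε ε φ (wd (vv b) w) = 0 := by
    intro w hw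
    cases w with
    | nil => exact absurd rfl hw
    | cons i w => rw [wd, List.map_cons, List.prod_cons, map_mul, hv, zero_mul]
  apply Pool.Agent.TH142.RZ.marked_nilp (C := Cut ε φ) (Fin s ⊕ (Fin s × Fin s)) (vv b) mk d e he
  · intro w hw
    exact hlin (fun i => wd (vv b) (w i)) fun i => haug _ (hw i)
  · rintro w ⟨x, hx, hmx⟩
    have hw : w ≠ [] := List.ne_nil_of_mem hx
    have h1 : cutε ε φ (wd (vv b) w) = 0 := haug w hw
    have h2 : φ (wd (vv b) w : Cut ε φ) = 0 := by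
      have h3 : φ ((wd (vv b) w : Cut ε φ) : C) =
        (Int.castRingHom Q) (ε ((wd (vv b) w : Cut ε φ) : C)) := (wd (vv b) w : Cut ε φ).2
      have h4 : ε ((wd (vv b) w : Cut ε φ) : C) = 0 := h1
      rw [h3, h4, map_zero]
    have h5 : wd (vv b) w ∈ commIdeal (Cut ε φ) := by
      obtain ⟨w1, w2, rfl⟩ := List.append_of_mem hx
      rw [wd_append]
      apply (commIdeal (Cut ε φ)).mul_mem_left
      rw [wd, List.map_cons, List.prod_cons]
      apply (commIdeal (Cut ε φ)).mul_mem_right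
      rcases x with i | ⟨i, j⟩
      · exact absurd hmx (by simp [mk])
      · exact TwoSidedIdeal.subset_span ⟨_, _, rfl⟩
    obtain ⟨k, hk⟩ := hφ _ h1 h2 (commIdeal_image (Cut ε φ).subtype _ h5)
    exact ⟨k, Subtype.ext (by
      rw [SubmonoidClass.coe_pow]
      exact hk)⟩

end

end Pool.Agent.TH37.RZ
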