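import Pool.Agent.TH37.RZ.Defs
import Pool.Agent.TH37.RF.Fin2

/-! A finitely generated ring of characteristic `p` with `x (y z - z y) t = 0` which is not
residually finite. -/

set_option autoImplicit false

namespace Pool.Agent.TH37.RZ

theorem nec (p : ℕ) (hp : p.Prime) :
    ∃ (A : Type) (_ : NonUnitalRing A),
      (∃ s : Set A, s.Finite ∧ NonUnitalSubring.closure s = ⊤) ∧
      (∀ x : A, p • x = 0) ∧ (∀ x y z t : A, x * (y * z - z * y) * t = 0) ∧
      ∃ a : A, a ≠ 0 ∧ ∀ (B : Type) [NonUnitalRing B] [Finite B] (φ : A →ₙ+* B), φ a = 0 := by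
  have : Fact p.Prime := ⟨hp⟩
  obtain ⟨A, i1, i2, i3, i4, ⟨s, hs, hgen⟩, hid, a, ha, hB⟩ := Pool.Agent.TH37.RF.nec' (ZMod p)
  refine ⟨A, i1, ⟨s, hs, ?_⟩, ?_, hid, a, ha, ?_⟩
  · rw [eq_top_iff]
    intro x _
    have hx : x ∈ NonUnitalAlgebra.adjoin (ZMod p) s := by rw [hgen]; trivial
    induction hx using NonUnitalAlgebra.adjoin_induction with
    | mem x hx => exact NonUnitalSubring.subset_closure hx
    | zero => exact zero_mem _
    | add x y _ _ hx hy => exact add_mem (hx trivial) (hy trivial)
    | mul x y _ _ hx hy => exact mul_mem (hx trivial) (hy trivial)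
    | smul c x _ hx =>
      have e : c • x = c.val • x := by
        rw [← Nat.cast_smul_eq_nsmul (ZMod p), ZMod.natCast_zmod_val]
      rw [e]
      exact nsmul_mem (hx trivial) _
  · intro x
    rw [← Nat.cast_smul_eq_nsmul (ZMod p), ZMod.natCast_self, zero_smul]
  · intro B _ _ φ
    let R := NonUnitalRingHom.range φ
    have hR : ∀ y : R, p • y = 0 := by
      rintro ⟨_, x, rfl⟩
      apply Subtype.ext
      change p • (φ x) = 0
      rw [← map_nsmul, ← Nat.cast_smul_eq_nsmul (ZMod p), ZMod.natCast_self, zero_smul, map_zero]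
    let iM : Module (ZMod p) R := AddCommGroup.zmodModule hR
    have hsm : ∀ (c : ZMod p) (y : R), c • y = c.val • y := by
      intro c y
      rw [← Nat.cast_smul_eq_nsmul (ZMod p), ZMod.natCast_zmod_val]
    have iT : IsScalarTower (ZMod p) R R := ⟨by
      intro c x y
      rw [hsm, hsm, smul_eq_mul, smul_eq_mul, smul_mul_assoc]⟩
    have iS : SMulCommClass (ZMod p) R R := ⟨by
      intro c x y
      rw [hsm, hsm, smul_eq_mul, smul_eq_mul, mul_smul_comm]⟩
    have iF : Finite R := Subtype.finite
    have iMF : @Module.Finite (ZMod p) R _ _ iM := @Module.Finite.of_finite (ZMod p) R _ _ iM iF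
    let ψ : A →ₙₐ[ZMod p] R :=
      { toFun := fun x => ⟨φ x, x, rfl⟩
        map_smul' := by
          intro c x
          rw [hsm]
          apply Subtype.ext
          change φ (c • x) = c.val • φ x
          rw [← map_nsmul, ← Nat.cast_smul_eq_nsmul (ZMod p), ZMod.natCast_zmod_val]
        map_zero' := Subtype.ext (map_zero φ)
        map_add' := fun x y => Subtype.ext (map_add φ x y)
        map_mul' := fun x y => Subtype.ext (map_mul φ x y) }
    have h1 := @hB R _ iM iT iS iMF ψ
    exact congrArg Subtype.val h1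

end Pool.Agent.TH37.RZ
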