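import Pool.Agent.TH37.RZ.Asm3
import Pool.Agent.TH37.RZ.Asm4
import Pool.Agent.TH37.RZ.Nec
import Pool.Agent.TH788.RZ_ANN
import Pool.Agent.TH858.RZ_DETECT
import Pool.Agent.TH142.RZ.GSTAR

/-! Transfer to nonunital rings. -/

set_option autoImplicit false

namespace Pool.Agent.TH37.RZ

open Pool.Agent.TH37.RF (commIdeal NilpId TT zword wd prodNE SameType toL toL_inj)

/-- the augmentation ideal -/
def KK {C : Type} [Ring C] (ε : C →+* ℤ) : TwoSidedIdeal C := TwoSidedIdeal.ker ε

theorem mem_KK {C : Type} [Ring C] (ε : C →+* ℤ) (x : C) : x ∈ KK ε ↔ ε x = 0 :=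
  TwoSidedIdeal.mem_ker _

section unit

variable {A : Type} [NonUnitalRing A]

/-- the augmentation of the unitization -/
def uε (A : Type) [NonUnitalRing A] :
    @RingHom (Unitization ℤ A) ℤ (Ring.toSemiring.toNonAssocSemiring) _ where
  toFun x := x.fst
  map_one' := rfl
  map_mul' _ _ := rfl
  map_zero' := rfl
  map_add' _ _ := rfl

theorem uε_apply (x : Unitization ℤ A) : uε A x = x.fst := rfl

theorem fgen_unit (s : Set A) (hs : s.Finite) (hgen : NonUnitalSubring.closure s = ⊤) :
    FGen (uε A) := by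
  obtain ⟨r, b, hb⟩ := hs.fin_param
  refine ⟨r, fun i => (b i : Unitization ℤ A), fun i => by simp [uε_apply], ?_⟩
  rw [eq_top_iff]
  have h1 : ∀ a : A, (a : Unitization ℤ A) ∈
      Subring.closure (Set.range fun i => (b i : Unitization ℤ A)) := by
    intro a
    have ha : a ∈ NonUnitalSubring.closure s := by rw [hgen]; trivial
    induction ha using NonUnitalSubring.closure_induction with
    | mem x hx =>
      rw [← hb.2] at hx
      obtain ⟨i, rfl⟩ := hx
      exact Subring.subset_closure ⟨i, rfl⟩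
    | zero => rw [Unitization.inr_zero]; exact Subring.zero_mem _
    | add x y _ _ hx hy => rw [Unitization.inr_add]; exact Subring.add_mem _ hx hy
    | neg x _ hx => rw [Unitization.inr_neg]; exact Subring.neg_mem _ hx
    | mul x y _ _ hx hy => rw [Unitization.inr_mul]; exact Subring.mul_mem _ hx hy
  intro x _
  rw [← Unitization.inl_fst_add_inr_snd_eq x]
  refine Subring.add_mem _ ?_ (h1 _)
  have e : (Unitization.inl x.fst : Unitization ℤ A) = ((x.fst : ℤ) : Unitization ℤ A) := by
    rw [← zsmul_one, ← Unitization.inl_one, ← Unitization.inl_smul, smul_eq_mul, mul_one]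
  rw [e]
  exact intCast_mem _ _

theorem inr_prod (w : List A) (hw : w ≠ []) :
    (w.map (Unitization.inr : A → Unitization ℤ A)).prod =
      (Unitization.inr (prodNE w) : Unitization ℤ A) := by
  induction w with
  | nil => exact absurd rfl hw
  | cons x l ih =>
    cases l with
    | nil => simp [prodNE]
    | cons y l =>
      rw [List.map_cons, List.prod_cons, ih (by simp), prodNE, Unitization.inr_mul]

/-- integer version of `Satisfies` -/
def SatZ (A : Type) [NonUnitalRing A] (f : List ℕ →₀ ℤ) : Prop :=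
  ∀ a : ℕ → A, (f.sum fun w r => r • prodNE (w.map a)) = 0

theorem nonunital_rf (hchar : CharStmt) (hunit : UnitStmt) (S : Set (List ℕ →₀ ℤ))
    (hS : ∀ p : ℕ, p.Prime → ∃ f ∈ S, ∃ w : List ℕ, w ≠ [] ∧
      ¬ (p : ℤ) ∣ ∑ᶠ (w' : List ℕ) (_ : SameType w w'), f w')
    (hsat : ∀ f ∈ S, SatZ A f)
    (s : Set A) (hs : s.Finite) (hgen : NonUnitalSubring.closure s = ⊤) (a : A) (ha : a ≠ 0) :
    ∃ (B : Type) (_ : NonUnitalRing B) (_ : Finite B) (φ : A →ₙ+* B),
      Function.Surjective φ ∧ φ a ≠ 0 := by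
  classical
  obtain ⟨c, hc, hcf⟩ := Pool.Agent.TH142.RZ.gstar S hS
  obtain ⟨ε, hε⟩ : ∃ ε : @RingHom (Unitization ℤ A) ℤ (Ring.toSemiring.toNonAssocSemiring) _,
      ε = uε A := ⟨_, rfl⟩
  have hεa : ∀ x, ε x = x.fst := fun x => by rw [hε, uε_apply]
  have hid : Ident (C := Unitization ℤ A) c ε := by
    intro x y z hx hy hz
    refine hcf (Unitization ℤ A) (KK (C := Unitization ℤ A) ε) ?_ x
      ((mem_KK (C := Unitization ℤ A) ε x).2 hx) y ((mem_KK (C := Unitization ℤ A) ε y).2 hy) z
      ((mem_KK (C := Unitization ℤ A) ε z).2 hz)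
    intro f hf b hb
    have hb' : ∀ i, b i = ((b i).snd : Unitization ℤ A) := by
      intro i
      have h1 : (b i).fst = 0 := by
        rw [← hεa]
        exact (mem_KK (C := Unitization ℤ A) ε (b i)).1 (hb i)
      conv_lhs => rw [← Unitization.inl_fst_add_inr_snd_eq (b i)]
      rw [h1, Unitization.inl_zero, zero_add]
    have h2 := hsat f hf (fun i => (b i).snd)
    have h3 := congrArg (Unitization.inrNonUnitalAlgHom ℤ A) h2
    rw [map_zero] at h3
    refine Eq.trans ?_ h3
    rw [Finsupp.sum, Finsupp.sum, map_sum]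
    refine Finset.sum_congr rfl fun w _ => ?_
    split_ifs with hw
    · subst hw
      simp [prodNE]
    · rw [map_zsmul]
      congr 1
      change _ = (Unitization.inr (prodNE (List.map (fun i => (b i).snd) w)) : Unitization ℤ A)
      rw [← inr_prod _ (by simpa using hw), List.map_map]
      congr 1
      refine List.map_congr_left fun i _ => ?_
      exact hb' i
  have hfg : FGen (C := Unitization ℤ A) ε := by
    rw [hε]
    exact fgen_unit s hs hgen
  have hdet : DetectStmt := fun C _ ε h1 h2 β h3 h4 =>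
    Pool.Agent.TH858.RZDetect.detect ε h1 h2 β h3 h4
  have hann : AnnStmt := fun C _ ε h1 h2 h h3 => Pool.Agent.TH788.RZAnn.mono_ann ε h1 h2 h h3
  have hane : (a : Unitization ℤ A) ≠ 0 := by
    intro h
    apply ha
    exact Unitization.inr_injective (h.trans (Unitization.inr_zero ℤ).symm)
  have haug : ε (a : Unitization ℤ A) = 0 := by
    rw [hεa, Unitization.fst_inr]
  obtain ⟨Q0, iR0, iF0, φ0, hφ0⟩ := to_good hunit hdet ε hfg c hc hid
  have hsep : Sep (a : Unitization ℤ A) := by
    by_cases h0 : φ0 (a : Unitization ℤ A) = 0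
    swap
    · exact ⟨Q0, iR0, iF0, φ0, h0⟩
    have haC : (a : Unitization ℤ A) ∈ Cut ε φ0 := by
      change φ0 _ = (Int.castRingHom _) (ε _)
      rw [h0, haug, map_zero]
    refine Pool.Agent.TH480.J752.sep_of_cut ε φ0 ⟨(a : Unitization ℤ A), haC⟩ haug ?_
    exact good_sep hann hchar (cutε ε φ0) c hc hφ0 _
      (fun h => hane (congrArg Subtype.val h)) haug
  obtain ⟨Q, iR, iF, φ, hφ⟩ := hsep
  let ψ : A →ₙ+* Q := (φ : Unitization ℤ A →ₙ+* Q).comp
    (Unitization.inrNonUnitalAlgHom ℤ A : A →ₙ+* Unitization ℤ A)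
  have hfin : Finite (NonUnitalRingHom.range ψ) := Subtype.finite
  refine ⟨NonUnitalRingHom.range ψ, inferInstance, hfin, NonUnitalRingHom.rangeRestrict ψ, ?_, ?_⟩
  · exact NonUnitalRingHom.rangeRestrict_surjective ψ
  · intro h
    apply hφ
    exact congrArg Subtype.val h

end unit

section trivial

variable {A : Type} [NonUnitalRing A]

open Classical in
theorem sat_trivial (p : ℕ) (hp : ∀ x : A, p • x = 0)
    (hA : ∀ x y z t : A, x * (y * z - z * y) * t = 0) (f : List ℕ →₀ ℤ)
    (hf : ∀ w : List ℕ, w ≠ [] → (p : ℤ) ∣ ∑ᶠ (w' : List ℕ) (_ : SameType w w'), f w') :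
    SatZ A f := by
  intro a
  let T : List ℕ → Option ℕ × Option ℕ × Multiset ℕ := fun w => (w.head?, w.getLast?, (w : Multiset ℕ))
  have hT : ∀ w w', SameType w w' ↔ T w' = T w := by
    intro w w'
    constructor
    · rintro ⟨h1, h2, h3⟩
      simp only [T]
      rw [h1, h2, Multiset.coe_eq_coe.2 h3]
    · intro h
      simp only [T, Prod.mk.injEq, Multiset.coe_eq_coe] at h
      exact ⟨h.1.symm, h.2.1.symm, h.2.2.symm⟩
  unfold Finsupp.sum
  rw [← Finset.sum_fiberwise_of_maps_to (g := T) (t := f.support.image T)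
    (fun w hw => Finset.mem_image_of_mem T hw)]
  apply Finset.sum_eq_zero
  intro τ hτ
  obtain ⟨w0, hw0, rfl⟩ := Finset.mem_image.1 hτ
  have h1 : ∑ w ∈ f.support with T w = T w0, f w • prodNE (w.map a) =
      ∑ w ∈ f.support with T w = T w0, f w • prodNE (w0.map a) := by
    apply Finset.sum_congr rfl
    intro w hw
    rw [Finset.mem_filter] at hw
    rw [Pool.Agent.TH37.RF.value_eq' hA ((hT w0 w).2 hw.2) a]
  rw [h1, ← Finset.sum_smul]
  by_cases hw : w0 = []
  · subst hw
    have : prodNE (([] : List ℕ).map a) = 0 := rfl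
    rw [this, smul_zero]
  · have h2 := hf w0 hw
    have h3 : (∑ᶠ (w' : List ℕ) (_ : SameType w0 w'), f w') =
        ∑ w ∈ f.support with T w = T w0, f w := by
      have : (∑ᶠ (w' : List ℕ) (_ : w' ∈ {w' | SameType w0 w'}), f w') =
          ∑ w ∈ f.support with T w = T w0, f w := by
        apply finsum_mem_eq_sum_of_inter_support_eq
        ext w
        simp only [Set.mem_inter_iff, Set.mem_ofPred_eq, Function.mem_support, Finset.coe_filter,
          Finsupp.mem_support_iff, hT]
        tauto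
      exact this
    rw [h3] at h2
    obtain ⟨s, hs⟩ := h2
    rw [hs, mul_comm, mul_smul, natCast_zsmul, hp, smul_zero]

end trivial

section free

/-- coefficients on lists -/
noncomputable def toP (f : MonoidAlgebra ℤ (FreeSemigroup ℕ)) : List ℕ →₀ ℤ :=
  f.coeff.mapDomain toL

theorem toP_toL (f : MonoidAlgebra ℤ (FreeSemigroup ℕ)) (w : FreeSemigroup ℕ) :
    toP f (toL w) = f.coeff w := Finsupp.mapDomain_apply toL_inj _ _

theorem eval_eq {A : Type} [NonUnitalRing A] (a : ℕ → A) (f : MonoidAlgebra ℤ (FreeSemigroup ℕ)) :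
    MonoidAlgebra.liftMagma ℤ (FreeSemigroup.lift a) f =
      (toP f).sum fun w r => r • prodNE (w.map a) := by
  rw [MonoidAlgebra.liftMagma_apply_apply, toP, Finsupp.sum_mapDomain_index]
  · refine Finsupp.sum_congr fun w _ => ?_
    rw [← Pool.Agent.TH37.RF.lift_eq]
    rfl
  · intro w
    rw [zero_smul]
  · intro w r r'
    rw [add_smul]

theorem satisfies_iff {A : Type} [NonUnitalRing A] (f : MonoidAlgebra ℤ (FreeSemigroup ℕ)) :
    (∀ a : ℕ → A, MonoidAlgebra.liftMagma ℤ (FreeSemigroup.lift a) f = 0) ↔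
      SatZ A (toP f) := by
  refine forall_congr' fun a => ?_
  rw [eval_eq]

theorem typeSum_eq (f : MonoidAlgebra ℤ (FreeSemigroup ℕ)) (w : FreeSemigroup ℕ) :
    (∑ᶠ (w' : List ℕ) (_ : SameType (toL w) w'), toP f w') =
      ∑ᶠ (w' : FreeSemigroup ℕ) (_ : SameType (toL w) (toL w')), f.coeff w' := by
  have h1 : {w' : List ℕ | SameType (toL w) w'} = toL '' {w' | SameType (toL w) (toL w')} := by
    ext w'
    constructor
    · intro h
      cases w' with
      | nil =>
        have h2 := h.2.2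
        simp [toL] at h2
      | cons x l => exact ⟨⟨x, l⟩, h, rfl⟩
    · rintro ⟨v, hv, rfl⟩
      exact hv
  have h2 : (∑ᶠ (w' : List ℕ) (_ : w' ∈ {w' : List ℕ | SameType (toL w) w'}), toP f w') =
    ∑ᶠ (w' : FreeSemigroup ℕ) (_ : w' ∈ {w' | SameType (toL w) (toL w')}), f.coeff w' := by
    rw [h1, finsum_mem_image toL_inj.injOn]
    simp only [toP_toL]
  exact h2

end free

end Pool.Agent.TH37.RZ
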