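import Mathlib

set_option autoImplicit false

namespace Pool.Agent.TH37.RZ

open Polynomial

/-- power sums: if all positive power sums of the weighted numbers vanish then a polynomial without
constant term has weighted sum zero -/
theorem pow_sums {D ι : Type} [CommRing D] (E : Finset ι) (α : ι → D) (w : ι → D)
    (h : ∀ s : ℕ, 1 ≤ s → ∑ e ∈ E, α e * w e ^ s = 0) (Q : Polynomial D) (hQ : Q.coeff 0 = 0) :
    ∑ e ∈ E, α e * Q.eval (w e) = 0 := by
  have h1 : ∀ e ∈ E, α e * Q.eval (w e) =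
      ∑ s ∈ Finset.range (Q.natDegree + 1), Q.coeff s * (α e * w e ^ s) := by
    intro e _
    rw [Polynomial.eval_eq_sum_range, Finset.mul_sum]
    exact Finset.sum_congr rfl fun s _ => by ring
  rw [Finset.sum_congr rfl h1, Finset.sum_comm]
  apply Finset.sum_eq_zero
  intro s _
  rw [← Finset.mul_sum]
  rcases Nat.eq_zero_or_pos s with hs | hs
  · rw [hs, hQ, zero_mul]
  · rw [h s hs, mul_zero]

theorem one_rel {D ι : Type} [CommRing D] [IsDomain D] [DecidableEq ι] (E : Finset ι) (α : ι → D)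
    (w : ι → D) (h : ∀ s : ℕ, 1 ≤ s → ∑ e ∈ E, α e * w e ^ s = 0) (e0 : ι) (he0 : e0 ∈ E)
    (hα : α e0 ≠ 0) : w e0 = 0 ∨ ∃ e ∈ E, e ≠ e0 ∧ w e0 = w e := by
  have h1 := pow_sums E α w h (X * ∏ e ∈ E.erase e0, (X - C (w e))) (by simp)
  rw [← Finset.add_sum_erase E _ he0, Finset.sum_eq_zero, add_zero] at h1
  · rw [mul_eq_zero] at h1
    rcases h1 with h1 | h1
    · exact absurd h1 hα
    · rw [eval_mul, eval_X, mul_eq_zero] at h1
      rcases h1 with h1 | h1
      · exact Or.inl h1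
      · right
        rw [eval_prod, Finset.prod_eq_zero_iff] at h1
        obtain ⟨e, he, h2⟩ := h1
        rw [Finset.mem_erase] at he
        refine ⟨e, he.2, he.1, ?_⟩
        rw [eval_sub, eval_X, eval_C] at h2
        exact sub_eq_zero.1 h2
  · intro e he
    have : (X * ∏ e ∈ E.erase e0, (X - C (w e))).eval (w e) = 0 := by
      rw [eval_mul, eval_prod, Finset.prod_eq_zero he (by simp), mul_zero]
    rw [this, mul_zero]

theorem monA (U : Type) [CommRing U] [Nontrivial U] (s : ℕ) (hs : 2 ≤ s) :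
    (X ^ s + X : Polynomial U).Monic ∧ (X ^ s + X : Polynomial U).natDegree = s := by
  have h1 : (X ^ s + X : Polynomial U).Monic := by
    apply monic_X_pow_add
    rw [degree_X]
    exact_mod_cast hs
  refine ⟨h1, ?_⟩
  rw [natDegree_add_eq_left_of_natDegree_lt]
  · exact natDegree_X_pow s
  · rw [natDegree_X_pow, natDegree_X]
    omega

theorem monB (U : Type) [CommRing U] [Nontrivial U] (s : ℕ) (hs : 1 ≤ s) :
    (X ^ s + 1 : Polynomial U).Monic ∧ (X ^ s + 1 : Polynomial U).natDegree = s := by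
  have e : (X ^ s + 1 : Polynomial U) = X ^ s + C 1 := by simp
  rw [e]
  exact ⟨monic_X_pow_add_C 1 (by omega), natDegree_X_pow_add_C⟩

/-- version over a commutative ring (proof by helper966) -/
theorem integral_rel {F U D : Type} [CommRing F] [CommRing U] [Algebra F U] [CommRing D] [IsDomain D]
    [Algebra F D] [Algebra U D] [IsScalarTower F U D] (𝔪 : Ideal U)
    (h𝔪 : ∀ u ∈ 𝔪, algebraMap U D (1 + u) ≠ 0) (a c : U) (ha : a ∈ 𝔪) (hc : c ∈ 𝔪) (b : D)
    (α : ℕ × ℕ × ℕ →₀ F) (n : ℕ) (hn : algebraMap F D (α (0, n, 0)) ≠ 0)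
    (hrel : ∀ f : Polynomial F, f.coeff 0 = 0 →
      α.sum (fun e t => algebraMap F D t * (algebraMap U D (Polynomial.aeval a f)) ^ e.1 *
        (Polynomial.aeval b f) ^ e.2.1 * (algebraMap U D (Polynomial.aeval c f)) ^ e.2.2) = 0) :
    ∃ (P : Polynomial U) (d : ℕ), 1 ≤ d ∧ P.natDegree ≤ d ∧ P.coeff d - 1 ∈ 𝔪 ∧
      Polynomial.aeval b P = 0 := by
  classical
  have hU : Nontrivial U := by
    refine ⟨0, 1, fun h => ?_⟩
    apply h𝔪 0 𝔪.zero_mem
    rw [add_zero, ← h, map_zero]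
  by_contra hno
  -- reformulations of the negated conclusion
  have hno1 : ∀ (P1 P2 : Polynomial U) (d : ℕ), 1 ≤ d → P1.Monic → P1.natDegree = d →
      P2.natDegree < d → Polynomial.aeval b P1 ≠ Polynomial.aeval b P2 := by
    intro P1 P2 d hd h1 h2 h3 h4
    apply hno
    refine ⟨P1 - P2, d, hd, ?_, ?_, ?_⟩
    · exact (natDegree_sub_le _ _).trans (max_le h2.le h3.le)
    · rw [coeff_sub, coeff_eq_zero_of_natDegree_lt h3, ← h2, h1.coeff_natDegree, sub_zero, sub_self]
      exact 𝔪.zero_mem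
    · rw [map_sub, h4, sub_self]
  -- values
  obtain ⟨fa, hfa⟩ : ∃ fa : ℕ → U, fa = fun s => a ^ s + a := ⟨_, rfl⟩
  obtain ⟨fc, hfc⟩ : ∃ fc : ℕ → U, fc = fun s => c ^ s + c := ⟨_, rfl⟩
  obtain ⟨fb, hfb⟩ : ∃ fb : ℕ → D, fb = fun s => b ^ s + b := ⟨_, rfl⟩
  have hfam : ∀ s, 2 ≤ s → fa s ∈ 𝔪 := by
    intro s hs
    rw [hfa]
    exact 𝔪.add_mem (𝔪.pow_mem_of_mem ha s (by omega)) ha
  have hfcm : ∀ s, 2 ≤ s → fc s ∈ 𝔪 := by
    intro s hs
    rw [hfc]
    exact 𝔪.add_mem (𝔪.pow_mem_of_mem hc s (by omega)) hc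
  have hfbA : ∀ s, Polynomial.aeval b (X ^ s + X : Polynomial U) = fb s := by
    intro s
    rw [hfb]
    simp
  have hfb0 : ∀ s, 2 ≤ s → fb s ≠ 0 := by
    intro s hs h0
    obtain ⟨m1, m2⟩ := monA U s hs
    apply hno1 (X ^ s + X) 0 s (by omega) m1 m2 (by rw [natDegree_zero]; omega)
    rw [hfbA, h0, map_zero]
  have key : ∀ s, 2 ≤ s → ∃ e ∈ α.support, n < e.2.1 ∧
      algebraMap U D (fa s ^ e.1 * fc s ^ e.2.2) * fb s ^ (e.2.1 - n) = 1 := by
    intro s hs
    obtain ⟨w, hw⟩ : ∃ w : ℕ × ℕ × ℕ → D, w = fun e => (algebraMap U D (fa s)) ^ e.1 *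
      (fb s) ^ e.2.1 * (algebraMap U D (fc s)) ^ e.2.2 := ⟨_, rfl⟩
    have h1 : ∀ m : ℕ, 1 ≤ m → ∑ e ∈ α.support, algebraMap F D (α e) * w e ^ m = 0 := by
      intro m hm
      have h2 := hrel ((X ^ s + X) ^ m) (by
        rw [coeff_zero_eq_eval_zero]
        have hs0 : s ≠ 0 := by omega
        have hm0 : m ≠ 0 := by omega
        simp [hs0, hm0])
      rw [Finsupp.sum] at h2
      rw [← h2]
      refine Finset.sum_congr rfl fun e _ => ?_
      rw [hw, hfa, hfb, hfc]
      simp only [map_pow, map_add, aeval_X]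
      ring
    have hmem : ((0, n, 0) : ℕ × ℕ × ℕ) ∈ α.support := by
      rw [Finsupp.mem_support_iff]
      intro h0
      rw [h0, map_zero] at hn
      exact hn rfl
    have hα0 : algebraMap F D (α (0, n, 0)) ≠ 0 := hn
    rcases one_rel α.support (fun e => algebraMap F D (α e)) w h1 (0, n, 0) hmem hα0 with h2 | h2
    · exfalso
      rw [hw] at h2
      simp only [pow_zero, one_mul, mul_one] at h2
      exact pow_ne_zero n (hfb0 s hs) h2
    · obtain ⟨⟨i, j, k⟩, he, hne, h3⟩ := h2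
      rw [hw] at h3
      simp only [pow_zero, one_mul, mul_one] at h3
      obtain ⟨m1, m2⟩ := monA U s hs
      rcases lt_trichotomy j n with hj | hj | hj
      · -- j < n
        exfalso
        apply hno1 ((X ^ s + X) ^ n) (C (fa s ^ i * fc s ^ k) * (X ^ s + X) ^ j) (s * n)
          (Nat.mul_pos (by omega) (by omega)) (m1.pow n)
          (by rw [m1.natDegree_pow, m2, mul_comm])
        · refine (natDegree_C_mul_le _ _).trans_lt ?_
          rw [m1.natDegree_pow, m2, mul_comm]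
          exact Nat.mul_lt_mul_of_pos_left hj (by omega)
        · rw [map_pow, hfbA, map_mul, map_pow, hfbA, aeval_C, h3, map_mul, map_pow, map_pow]
          ring
      · -- j = n
        exfalso
        subst hj
        have hik : (i, k) ≠ (0, 0) := by
          intro h
          rw [Prod.mk.injEq] at h
          apply hne
          rw [h.1, h.2]
        have hu : fa s ^ i * fc s ^ k ∈ 𝔪 := by
          by_cases hi : i = 0
          · have hk : k ≠ 0 := by
              rintro rfl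
              exact hik (by rw [hi])
            exact 𝔪.mul_mem_left _ (𝔪.pow_mem_of_mem (hfcm s hs) k (Nat.pos_of_ne_zero hk))
          · exact 𝔪.mul_mem_right _ (𝔪.pow_mem_of_mem (hfam s hs) i (Nat.pos_of_ne_zero hi))
        have h4 := h𝔪 (-(fa s ^ i * fc s ^ k)) (𝔪.neg_mem hu)
        have h5 : fb s ^ j * algebraMap U D (1 + -(fa s ^ i * fc s ^ k)) = 0 := by
          rw [map_add, map_neg, map_one, map_mul, map_pow, map_pow]
          linear_combination h3
        rcases mul_eq_zero.1 h5 with h6 | h6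
        · exact pow_ne_zero j (hfb0 s hs) h6
        · exact h4 h6
      · -- n < j
        refine ⟨(i, j, k), he, hj, ?_⟩
        simp only
        have h4 : fb s ^ n * (algebraMap U D (fa s ^ i * fc s ^ k) * fb s ^ (j - n)) =
            fb s ^ n * 1 := by
          rw [map_mul, map_pow, map_pow]
          have h5 : fb s ^ j = fb s ^ n * fb s ^ (j - n) := by
            rw [← pow_add]; congr 1; omega
          rw [h5] at h3
          rw [mul_one]
          linear_combination -h3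
        exact mul_left_cancel₀ (pow_ne_zero n (hfb0 s hs)) h4
  -- pigeonhole
  choose! ee hee1 hee2 hee3 using key
  obtain ⟨s, s', hne, heq⟩ := Finite.exists_ne_map_eq_of_infinite
    (fun s : ℕ => (⟨ee (s + 2), hee1 (s + 2) (by omega)⟩ : α.support))
  wlog hlt : s < s' generalizing s s' with H
  · exact H s' s hne.symm heq.symm (lt_of_le_of_ne (not_lt.1 hlt) hne.symm)
  simp only [Subtype.mk.injEq] at heq
  have r1 := hee3 (s + 2) (by omega)
  have r2 := hee3 (s' + 2) (by omega)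
  have r0 := hee2 (s + 2) (by omega)
  rw [← heq] at r2
  obtain ⟨⟨i, j, k⟩, hijk⟩ : ∃ e : ℕ × ℕ × ℕ, e = ee (s + 2) := ⟨_, rfl⟩
  rw [← hijk] at r0 r1 r2
  simp only at r0 r1 r2
  obtain ⟨d, hd⟩ : ∃ d : ℕ, d = j - n := ⟨_, rfl⟩
  have hd1 : 1 ≤ d := by omega
  rw [← hd] at r1 r2
  obtain ⟨ep, hep⟩ : ∃ ep : ℕ → U, ep = fun s => (a ^ (s + 1) + 1) ^ i * (c ^ (s + 1) + 1) ^ k :=
    ⟨_, rfl⟩
  have hfac : ∀ t : ℕ, algebraMap U D (fa (t + 2) ^ i * fc (t + 2) ^ k) * fb (t + 2) ^ d =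
      (algebraMap U D (a ^ i * c ^ k) * b ^ d) * (algebraMap U D (ep t) * (b ^ (t + 1) + 1) ^ d) := by
    intro t
    have e1 : fa (t + 2) = a * (a ^ (t + 1) + 1) := by rw [hfa]; simp only; ring
    have e2 : fc (t + 2) = c * (c ^ (t + 1) + 1) := by rw [hfc]; simp only; ring
    have e3 : fb (t + 2) = b * (b ^ (t + 1) + 1) := by rw [hfb]; simp only; ring
    rw [e1, e2, e3, hep]
    simp only [map_mul, map_pow, mul_pow]
    ring
  rw [hfac] at r1 r2
  have hG : (algebraMap U D (a ^ i * c ^ k) * b ^ d) ≠ 0 := by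
    intro h0
    rw [h0, zero_mul] at r1
    exact zero_ne_one r1
  have r3 : algebraMap U D (ep s') * (b ^ (s' + 1) + 1) ^ d =
      algebraMap U D (ep s) * (b ^ (s + 1) + 1) ^ d :=
    mul_left_cancel₀ hG (r2.trans r1.symm)
  have hepm : ∀ t, ep t - 1 ∈ 𝔪 := by
    intro t
    have q1 : Ideal.Quotient.mk 𝔪 a = 0 := Ideal.Quotient.eq_zero_iff_mem.2 ha
    have q2 : Ideal.Quotient.mk 𝔪 c = 0 := Ideal.Quotient.eq_zero_iff_mem.2 hc
    rw [← Ideal.Quotient.eq_zero_iff_mem, hep]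
    simp only [map_sub, map_mul, map_pow, map_add, map_one, q1, q2]
    simp
  obtain ⟨m1, m2⟩ := monB U (s' + 1) (by omega)
  obtain ⟨m3, m4⟩ := monB U (s + 1) (by omega)
  apply hno
  refine ⟨C (ep s') * (X ^ (s' + 1) + 1) ^ d - C (ep s) * (X ^ (s + 1) + 1) ^ d, (s' + 1) * d,
    Nat.mul_pos (by omega) hd1, ?_, ?_, ?_⟩
  · refine (natDegree_sub_le _ _).trans (max_le ?_ ?_)
    · refine (natDegree_C_mul_le _ _).trans ?_
      rw [m1.natDegree_pow, m2, mul_comm]
    · refine (natDegree_C_mul_le _ _).trans ?_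
      rw [m3.natDegree_pow, m4, mul_comm]
      exact Nat.mul_le_mul_right _ (by omega)
  · have c1 : ((X ^ (s' + 1) + 1 : Polynomial U) ^ d).coeff ((s' + 1) * d) = 1 := by
      have h1 := (m1.pow d).coeff_natDegree
      rw [m1.natDegree_pow, m2, mul_comm] at h1
      exact h1
    have c2 : ((X ^ (s + 1) + 1 : Polynomial U) ^ d).coeff ((s' + 1) * d) = 0 := by
      apply coeff_eq_zero_of_natDegree_lt
      rw [m3.natDegree_pow, m4, mul_comm]
      exact Nat.mul_lt_mul_of_pos_right (by omega) hd1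
    rw [coeff_sub, coeff_C_mul, coeff_C_mul, c1, c2, mul_one, mul_zero, sub_zero]
    exact hepm s'
  · simp only [map_sub, map_mul, map_pow, map_add, map_one, aeval_C, aeval_X]
    rw [r3, sub_self]

end Pool.Agent.TH37.RZ
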