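import Pool.Agent.TH37.RZ.LemS1

/-! Lemma S, part 2: properties of the map `Φ`. -/

set_option autoImplicit false

namespace Pool.Agent.TH37.RZ

open Pool.Agent.TH37.RF (commIdeal NilpId TT zword wd)

open MvPolynomial

section

variable {F C : Type} [CommRing F] [Ring C] [Algebra F C] {r k : ℕ} {Cq : Type} [CommRing Cq]
  [Algebra F Cq] (q : C →ₐ[F] Cq)
  (hq : ∀ u, q u = 0 ↔ u ∈ commIdeal C) (π : MvPolynomial (Fin r) F →ₐ[F] Cq)
  (τ : MvPolynomial (Fin r) F →ₗ[F] C) (hτ : ∀ f, q (τ f) = π f)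

include hτ hq in
theorem Phi_eq (x : Fin k → C)
    (h1 : ∀ (u : Fin (k + 1) → C) (g : Fin (k + 1)), u g ∈ commIdeal C → TT x u = 0)
    (f : Fin (k + 1) → MvPolynomial (Fin r) F) (u : Fin (k + 1) → C)
    (hu : ∀ g, q (u g) = π (f g)) :
    Phi τ x (∏ g, rho F g (f g)) = TT x u := by
  rw [Phi_prod, TTm_apply]
  apply TT_congr F x h1
  intro g
  rw [← hq, map_sub, hτ, hu, sub_self]

theorem rho_mul_prod (g : Fin (k + 1)) (p : MvPolynomial (Fin r) F)
    (f : Fin (k + 1) → MvPolynomial (Fin r) F) :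
    rho F g p * ∏ g', rho F g' (f g') = ∏ g', rho F g' (Function.update f g (p * f g) g') := by
  classical
  rw [← Finset.mul_prod_erase Finset.univ _ (Finset.mem_univ g),
    ← Finset.mul_prod_erase Finset.univ (fun g' => rho F g' (Function.update f g (p * f g) g'))
      (Finset.mem_univ g), Function.update_self, map_mul, mul_assoc]
  congr 2
  refine Finset.prod_congr rfl fun g' hg' => ?_
  rw [Function.update_of_ne (Finset.ne_of_mem_erase hg')]

variable (b : Fin r → C) (hπ : ∀ i, π (X i) = q (b i))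

include hτ hq hπ in
theorem Phi_left (x : Fin k → C)
    (h1 : ∀ (u : Fin (k + 1) → C) (g : Fin (k + 1)), u g ∈ commIdeal C → TT x u = 0)
    (i : Fin r) (y : MvPolynomial (Fin (k + 1) × Fin r) F) :
    Phi τ x (X (0, i) * y) = b i * Phi τ x y := by
  have key : (Phi τ x) ∘ₗ (LinearMap.mulLeft F (X (0, i))) -
      (LinearMap.mulLeft F (b i)) ∘ₗ (Phi τ x) = 0 := by
    apply prod_ext
    intro f
    rw [LinearMap.sub_apply, LinearMap.comp_apply, LinearMap.comp_apply, LinearMap.mulLeft_apply,
      LinearMap.mulLeft_apply, sub_eq_zero]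
    have e1 : (X (0, i) : MvPolynomial (Fin (k + 1) × Fin r) F) = rho F 0 (X i) := by
      rw [rho, rename_X]
    rw [e1, rho_mul_prod,
      Phi_eq q hq π τ hτ x h1 _ (Function.update (fun g => τ (f g)) 0 (b i * τ (f 0))),
      Phi_eq q hq π τ hτ x h1 f (fun g => τ (f g)) (fun g => hτ _)]
    · exact TT_left x (fun g => τ (f g)) (b i)
    · intro g
      by_cases hg : g = 0
      · subst hg
        rw [Function.update_self, Function.update_self, map_mul, map_mul, hτ, hπ]
      · rw [Function.update_of_ne hg, Function.update_of_ne hg, hτ]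
  have h2 := LinearMap.congr_fun key y
  rw [LinearMap.sub_apply, LinearMap.zero_apply, sub_eq_zero] at h2
  exact h2

include hτ hq hπ in
theorem Phi_right (x : Fin (k + 1) → C)
    (h1 : ∀ (u : Fin (k + 2) → C) (g : Fin (k + 2)), u g ∈ commIdeal C → TT x u = 0)
    (i : Fin r) (y : MvPolynomial (Fin (k + 2) × Fin r) F) :
    Phi τ x (X (Fin.last (k + 1), i) * y) = Phi τ x y * b i := by
  have key : (Phi τ x) ∘ₗ (LinearMap.mulLeft F (X (Fin.last (k + 1), i))) -
      (LinearMap.mulRight F (b i)) ∘ₗ (Phi τ x) = 0 := by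
    apply prod_ext
    intro f
    rw [LinearMap.sub_apply, LinearMap.comp_apply, LinearMap.comp_apply, LinearMap.mulLeft_apply,
      LinearMap.mulRight_apply, sub_eq_zero]
    have e1 : (X (Fin.last (k + 1), i) : MvPolynomial (Fin (k + 2) × Fin r) F) =
        rho F (Fin.last (k + 1)) (X i) := by
      rw [rho, rename_X]
    rw [e1, rho_mul_prod,
      Phi_eq q hq π τ hτ x h1 _ (Function.update (fun g => τ (f g)) (Fin.last (k + 1))
        (τ (f (Fin.last (k + 1))) * b i)),
      Phi_eq q hq π τ hτ x h1 f (fun g => τ (f g)) (fun g => hτ _)]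
    · exact TT_right x (fun g => τ (f g)) (b i)
    · intro g
      by_cases hg : g = Fin.last (k + 1)
      · subst hg
        rw [Function.update_self, Function.update_self, map_mul, map_mul, hτ, hπ, mul_comm]
      · rw [Function.update_of_ne hg, Function.update_of_ne hg, hτ]
  have h2 := LinearMap.congr_fun key y
  rw [LinearMap.sub_apply, LinearMap.zero_apply, sub_eq_zero] at h2
  exact h2

include hτ hq in
theorem Phi_ker (x : Fin k → C)
    (h1 : ∀ (u : Fin (k + 1) → C) (g : Fin (k + 1)), u g ∈ commIdeal C → TT x u = 0)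
    (p : MvPolynomial (Fin r) F) (hp : π p = 0) (g : Fin (k + 1))
    (y : MvPolynomial (Fin (k + 1) × Fin r) F) :
    Phi τ x (rho F g p * y) = 0 := by
  have key : (Phi τ x) ∘ₗ (LinearMap.mulLeft F (rho F g p)) = 0 := by
    apply prod_ext
    intro f
    rw [LinearMap.comp_apply, LinearMap.mulLeft_apply, rho_mul_prod,
      Phi_eq q hq π τ hτ x h1 _ (Function.update (fun g => τ (f g)) g 0)]
    · apply h1 _ g
      rw [Function.update_self]
      exact (commIdeal C).zero_mem
    · intro g'
      by_cases hg : g' = g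
      · subst hg
        rw [Function.update_self, Function.update_self, map_mul, hp, zero_mul, map_zero]
      · rw [Function.update_of_ne hg, Function.update_of_ne hg, hτ]
  exact LinearMap.congr_fun key y

theorem TT_aug (ε : C →ₐ[F] F) (x : Fin (k + 1) → C) (hx : ∀ i, ε (x i) = 0)
    (u : Fin (k + 2) → C) : ε (TT x u) = 0 := by
  rw [TT, map_mul, List.ofFn_succ, List.prod_cons, map_mul, map_mul, hx, zero_mul, zero_mul,
    mul_zero]

theorem Phi_aug (ε : C →ₐ[F] F) (x : Fin (k + 1) → C) (hx : ∀ i, ε (x i) = 0)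
    (y : MvPolynomial (Fin (k + 2) × Fin r) F) : ε (Phi τ x y) = 0 := by
  have key : ε.toLinearMap ∘ₗ (Phi τ x) = 0 := by
    apply prod_ext
    intro f
    rw [LinearMap.comp_apply, Phi_prod, TTm_apply]
    exact TT_aug ε x hx _
  exact LinearMap.congr_fun key y

/-- the relation polynomial -/
noncomputable def Prel (α : ℕ × ℕ × ℕ →₀ F) (g : Fin (k + 1)) (p : MvPolynomial (Fin r) F) :
    MvPolynomial (Fin (k + 1) × Fin r) F :=
  α.sum fun e a => a • (rho F 0 p ^ e.1 * rho F g p ^ e.2.1 * rho F (Fin.last k) p ^ e.2.2)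

include hτ hq in
theorem Phi_rel (ε : C →ₐ[F] F) (α : ℕ × ℕ × ℕ →₀ F) (x : Fin k → C)
    (h1 : ∀ (u : Fin (k + 1) → C) (g : Fin (k + 1)), u g ∈ commIdeal C → TT x u = 0)
    (h2 : ∀ (u : Fin (k + 1) → C) (g : Fin (k + 1)), g ≠ 0 → g ≠ Fin.last k → ∀ z, ε z = 0 →
      α.sum (fun e a => a • TT x (fun i => (if i = 0 then z ^ e.1 else 1) * u i *
        (if i = g then z ^ e.2.1 else 1) * (if i = Fin.last k then z ^ e.2.2 else 1))) = 0)
    (g : Fin (k + 1)) (hg0 : g ≠ 0) (hgl : g ≠ Fin.last k) (z : C) (hz : ε z = 0)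
    (p : MvPolynomial (Fin r) F) (hp : q z = π p) (y : MvPolynomial (Fin (k + 1) × Fin r) F) :
    Phi τ x (Prel α g p * y) = 0 := by
  classical
  have key : (Phi τ x) ∘ₗ (LinearMap.mulLeft F (Prel α g p)) = 0 := by
    apply prod_ext
    intro f
    rw [LinearMap.comp_apply, LinearMap.mulLeft_apply, Prel, Finsupp.sum_mul, Finsupp.sum,
      map_sum, ← h2 (fun g => τ (f g)) g hg0 hgl z hz, Finsupp.sum]
    refine Finset.sum_congr rfl fun e _ => ?_
    rw [smul_mul_assoc, map_smul]
    congr 1
    have e1 : rho F 0 p ^ e.1 * rho F g p ^ e.2.1 * rho F (Fin.last k) p ^ e.2.2 *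
        ∏ g', rho F g' (f g') = ∏ g', rho F g' ((if g' = 0 then p ^ e.1 else 1) * f g' *
        (if g' = g then p ^ e.2.1 else 1) * (if g' = Fin.last k then p ^ e.2.2 else 1)) := by
      simp only [map_mul, Finset.prod_mul_distrib]
      have e2 : ∀ (g₀ : Fin (k + 1)) (m : ℕ), ∏ g' : Fin (k + 1),
          rho F g' (if g' = g₀ then p ^ m else 1) = rho F g₀ p ^ m := by
        intro g₀ m
        rw [Finset.prod_eq_single g₀]
        · rw [if_pos rfl, map_pow]
        · intro g' _ hg'
          rw [if_neg hg', map_one]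
        · intro h
          exact absurd (Finset.mem_univ g₀) h
      rw [e2, e2, e2]
      ring
    rw [e1]
    apply Phi_eq q hq π τ hτ x h1
    intro g'
    simp only [map_mul, hτ]
    have e3 : ∀ (P : Prop) [Decidable P] (m : ℕ), q (if P then z ^ m else 1) =
        π (if P then p ^ m else 1) := by
      intro P _ m
      split_ifs
      · rw [map_pow, map_pow, hp]
      · rw [map_one, map_one]
    rw [e3, e3, e3]
  exact LinearMap.congr_fun key y

end

end Pool.Agent.TH37.RZ
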