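import Pool.Agent.TH37.RZ.LemS2

/-! Lemma S, part 3: torsion. -/

set_option autoImplicit false

namespace Pool.Agent.TH37.RZ

open Pool.Agent.TH37.RF (commIdeal NilpId TT zword wd pow_le_of_ass)

open MvPolynomial

section

variable {F C : Type} [CommRing F] [Ring C] [Algebra F C] {r k : ℕ}

/-- the two outer gaps -/
def out (r k : ℕ) (s : Fin 2 × Fin r) : Fin (k + 2) × Fin r :=
  (if s.1 = 0 then 0 else Fin.last (k + 1), s.2)

/-- polynomials in the outer variables -/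
noncomputable def iot (F : Type) [CommRing F] (r k : ℕ) :
    MvPolynomial (Fin 2 × Fin r) F →ₐ[F] MvPolynomial (Fin (k + 2) × Fin r) F :=
  rename (out r k)

/-- the ideal of polynomials with constant term in `𝔭` -/
noncomputable def mid {F : Type} [CommRing F] (𝔭 : Ideal F) (r : ℕ) :
    Ideal (MvPolynomial (Fin 2 × Fin r) F) :=
  Ideal.span (Set.range X) ⊔ 𝔭.map MvPolynomial.C

theorem X_mem_mid {F : Type} [CommRing F] (𝔭 : Ideal F) {r : ℕ} (s : Fin 2 × Fin r) :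
    X s ∈ mid 𝔭 r := Ideal.mem_sup_left (Ideal.subset_span ⟨s, rfl⟩)

theorem C_mem_mid {F : Type} [CommRing F] (𝔭 : Ideal F) {r : ℕ} (a : F) (ha : a ∈ 𝔭) :
    MvPolynomial.C a ∈ mid 𝔭 r := Ideal.mem_sup_right (Ideal.mem_map_of_mem _ ha)

/-- version of `Mono` over a commutative ring -/
structure MonoF {F C : Type} [CommRing F] [Ring C] [Algebra F C] (ε : C →ₐ[F] F) (h : C) : Prop where
  ne : h ≠ 0
  aug : ε h = 0
  mem : ∀ I : TwoSidedIdeal C, (∀ x ∈ I, ε x = 0) → I ≠ ⊥ → h ∈ I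

/-- what we need about `Φ` -/
structure PhiData (F : Type) {C : Type} [CommRing F] [Ring C] [Algebra F C] (r k : ℕ)
    (b : Fin r → C) (ε : C →ₐ[F] F)
    (Φ : MvPolynomial (Fin (k + 2) × Fin r) F →ₗ[F] C) : Prop where
  left : ∀ i y, Φ (X (0, i) * y) = b i * Φ y
  right : ∀ i y, Φ (X (Fin.last (k + 1), i) * y) = Φ y * b i
  aug : ∀ y, ε (Φ y) = 0

variable {b : Fin r → C} {ε : C →ₐ[F] F} {Φ : MvPolynomial (Fin (k + 2) × Fin r) F →ₗ[F] C}

theorem PhiData.var (hΦ : PhiData F r k b ε Φ) (s : Fin 2 × Fin r)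
    (y : MvPolynomial (Fin (k + 2) × Fin r) F) :
    Φ (iot F r k (X s) * y) = if s.1 = 0 then b s.2 * Φ y else Φ y * b s.2 := by
  rw [iot, rename_X, out]
  split_ifs with h
  · exact hΦ.left s.2 y
  · exact hΦ.right s.2 y

theorem PhiData.zero_mul (hΦ : PhiData F r k b ε Φ) (v : MvPolynomial (Fin 2 × Fin r) F) :
    ∀ y : MvPolynomial (Fin (k + 2) × Fin r) F, Φ y = 0 → Φ (iot F r k v * y) = 0 := by
  induction v using MvPolynomial.induction_on with
  | C a =>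
    intro y hy
    have : iot F r k (MvPolynomial.C a) * y = a • y := by
      rw [iot, rename_C, MvPolynomial.smul_eq_C_mul]
    rw [this, map_smul, hy, smul_zero]
  | add p q hp hq =>
    intro y hy
    rw [map_add, add_mul, map_add, hp y hy, hq y hy, add_zero]
  | mul_X p s hp =>
    intro y hy
    rw [map_mul (iot F r k), mul_assoc]
    apply hp
    rw [hΦ.var, hy, mul_zero, MulZeroClass.zero_mul, ite_self]

/-- the annihilator of `y` -/
noncomputable def annJ (hΦ : PhiData F r k b ε Φ) (y : MvPolynomial (Fin (k + 2) × Fin r) F) :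
    Ideal (MvPolynomial (Fin 2 × Fin r) F) where
  carrier := {u | Φ (iot F r k u * y) = 0}
  zero_mem' := by
    change Φ (iot F r k 0 * y) = 0
    rw [map_zero, MulZeroClass.zero_mul, map_zero]
  add_mem' := by
    intro u v hu hv
    change Φ (iot F r k (u + v) * y) = 0
    rw [map_add, add_mul, map_add, hu, hv, add_zero]
  smul_mem' := by
    intro v u hu
    change Φ (iot F r k (v * u) * y) = 0
    rw [map_mul (iot F r k), mul_assoc]
    exact hΦ.zero_mul v _ hu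

theorem mem_annJ (hΦ : PhiData F r k b ε Φ) (y : MvPolynomial (Fin (k + 2) × Fin r) F)
    (u : MvPolynomial (Fin 2 × Fin r) F) : u ∈ annJ hΦ y ↔ Φ (iot F r k u * y) = 0 := Iff.rfl

theorem PhiData.torsion [IsNoetherianRing F] (hΦ : PhiData F r k b ε Φ)
    (hgen : Algebra.adjoin F (Set.range b) = ⊤) (h : C) (hm : MonoF ε h)
    (hh : ∀ i, b i * h = 0 ∧ h * b i = 0) (𝔭 : Ideal F) (h𝔭 : ∀ a ∈ 𝔭, a • h = 0)
    (y : MvPolynomial (Fin (k + 2) × Fin r) F) :
    ∃ κ : ℕ, mid 𝔭 r ^ κ ≤ annJ hΦ y := by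
  apply pow_le_of_ass
  intro w Q hQ hQw
  set y' := iot F r k w * y with hy'
  have hc : Φ y' ≠ 0 := by
    intro h0
    apply hQ.ne_top
    rw [Ideal.eq_top_iff_one, hQw, one_mul]
    exact h0
  -- the two-sided ideal
  have hb : ∀ c : C, ∀ v, (∃ v', c * Φ (iot F r k v * y') = Φ (iot F r k v' * y')) ∧
      ∃ v', Φ (iot F r k v * y') * c = Φ (iot F r k v' * y') := by
    intro c
    have hcm : c ∈ Algebra.adjoin F (Set.range b) := by rw [hgen]; trivial
    induction hcm using Algebra.adjoin_induction with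
    | mem c hc =>
      obtain ⟨i, rfl⟩ := hc
      intro v
      refine ⟨⟨X (0, i) * v, ?_⟩, ⟨X (1, i) * v, ?_⟩⟩
      · rw [map_mul (iot F r k), mul_assoc, hΦ.var, if_pos rfl]
      · rw [map_mul (iot F r k), mul_assoc, hΦ.var, if_neg (by simp)]
    | algebraMap a =>
      intro v
      have e : iot F r k (MvPolynomial.C a * v) * y' = a • (iot F r k v * y') := by
        rw [map_mul (iot F r k), iot, rename_C, mul_assoc, MvPolynomial.smul_eq_C_mul]
      refine ⟨⟨MvPolynomial.C a * v, ?_⟩, ⟨MvPolynomial.C a * v, ?_⟩⟩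
      · rw [e, map_smul, Algebra.smul_def]
      · rw [e, map_smul, Algebra.smul_def, Algebra.commutes]
    | add c d _ _ hc hd =>
      intro v
      obtain ⟨⟨v1, h1⟩, ⟨v2, h2⟩⟩ := hc v
      obtain ⟨⟨v3, h3⟩, ⟨v4, h4⟩⟩ := hd v
      refine ⟨⟨v1 + v3, ?_⟩, ⟨v2 + v4, ?_⟩⟩
      · rw [add_mul, h1, h3, map_add, add_mul, map_add]
      · rw [mul_add, h2, h4, map_add, add_mul, map_add]
    | mul c d _ _ hc hd =>
      intro v
      constructor
      · obtain ⟨⟨v1, h1⟩, -⟩ := hd v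
        obtain ⟨⟨v2, h2⟩, -⟩ := hc v1
        exact ⟨v2, by rw [mul_assoc, h1, h2]⟩
      · obtain ⟨-, ⟨v1, h1⟩⟩ := hc v
        obtain ⟨-, ⟨v2, h2⟩⟩ := hd v1
        exact ⟨v2, by rw [← mul_assoc, h1, h2]⟩
  let I : TwoSidedIdeal C := TwoSidedIdeal.mk' {c | ∃ v, c = Φ (iot F r k v * y')}
    ⟨0, by rw [map_zero, MulZeroClass.zero_mul, map_zero]⟩
    (by
      rintro _ _ ⟨v, rfl⟩ ⟨v', rfl⟩
      exact ⟨v + v', by rw [map_add, add_mul, map_add]⟩)
    (by
      rintro _ ⟨v, rfl⟩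
      exact ⟨-v, by rw [map_neg, neg_mul, map_neg]⟩)
    (by
      rintro c _ ⟨v, rfl⟩
      exact (hb c v).1)
    (by
      rintro _ c ⟨v, rfl⟩
      exact (hb c v).2)
  have hI : ∀ c, c ∈ I ↔ ∃ v, c = Φ (iot F r k v * y') :=
    fun c => TwoSidedIdeal.mem_mk' _ _ _ _ _ _ c
  have hhI : h ∈ I := by
    apply hm.mem
    · intro c hc
      obtain ⟨v, rfl⟩ := (hI c).1 hc
      exact hΦ.aug _
    · intro h0
      apply hc
      have h1 : Φ y' ∈ I := (hI _).2 ⟨1, by rw [map_one, one_mul]⟩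
      rw [h0, TwoSidedIdeal.mem_bot] at h1
      exact h1
  obtain ⟨v, hv⟩ := (hI h).1 hhI
  have hvQ : v ∉ Q := by
    intro hvQ
    rw [hQw, mem_annJ, map_mul (iot F r k), mul_assoc, ← hy', ← hv] at hvQ
    exact hm.ne hvQ
  rw [mid, sup_le_iff, Ideal.span_le, Ideal.map_le_iff_le_comap]
  refine ⟨?_, fun a ha => ?_⟩
  swap
  · have h3 : MvPolynomial.C a * v ∈ Q := by
      have e : iot F r k (MvPolynomial.C a * v) * y' = a • (iot F r k v * y') := by
        rw [map_mul (iot F r k), iot, rename_C, mul_assoc, MvPolynomial.smul_eq_C_mul]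
      rw [hQw, mem_annJ, mul_assoc, map_mul (iot F r k), map_mul (iot F r k), mul_assoc, mul_assoc,
        ← hy', ← mul_assoc, ← map_mul (iot F r k), e, map_smul, ← hv, h𝔭 a ha]
    rcases hQ.mem_or_mem h3 with h4 | h4
    · exact h4
    · exact absurd h4 hvQ
  rintro _ ⟨s, rfl⟩
  have h3 : X s * v ∈ Q := by
    rw [hQw, mem_annJ, mul_assoc, map_mul (iot F r k), map_mul (iot F r k), mul_assoc, mul_assoc,
      ← hy', hΦ.var, ← hv,
      (hh _).1, (hh _).2, ite_self]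
  rcases hQ.mem_or_mem h3 with h4 | h4
  · exact h4
  · exact absurd h4 hvQ

theorem PhiData.inj [IsNoetherianRing F] (hΦ : PhiData F r k b ε Φ)
    (hgen : Algebra.adjoin F (Set.range b) = ⊤) (h : C) (hm : MonoF ε h)
    (hh : ∀ i, b i * h = 0 ∧ h * b i = 0) (𝔭 : Ideal F) (h𝔭 : ∀ a ∈ 𝔭, a • h = 0)
    (y : MvPolynomial (Fin (k + 2) × Fin r) F)
    (μ : MvPolynomial (Fin 2 × Fin r) F) (hμ : μ ∈ mid 𝔭 r)
    (h0 : Φ (iot F r k (1 + μ) * y) = 0) : Φ y = 0 := by
  obtain ⟨κ, hκ⟩ := hΦ.torsion hgen h hm hh 𝔭 h𝔭 y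
  have h1 : (1 + μ) ∈ annJ hΦ y := h0
  have h2 : μ ^ κ ∈ annJ hΦ y := hκ (Ideal.pow_mem_pow hμ κ)
  have h3 : IsCoprime (1 + μ) (μ ^ κ) := by
    apply IsCoprime.pow_right
    exact ⟨1, -1, by ring⟩
  obtain ⟨a, c, hac⟩ := h3
  have h4 : (1 : MvPolynomial (Fin 2 × Fin r) F) ∈ annJ hΦ y := by
    rw [← hac]
    exact (annJ hΦ y).add_mem ((annJ hΦ y).mul_mem_left a h1) ((annJ hΦ y).mul_mem_left c h2)
  rw [mem_annJ, map_one, one_mul] at h4
  exact h4

end

end Pool.Agent.TH37.RZ
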