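import Pool.Agent.TH37.RZ.LemS3
import Pool.Agent.TH37.RZ.Int

/-! Lemma S, part 4a: abstract commutative algebra. -/

set_option autoImplicit false

namespace Pool.Agent.TH37.RZ

open MvPolynomial

section

variable {F U D : Type} [CommRing F] [CommRing U] [Algebra F U] [CommRing D] [IsDomain D]
    [Algebra F D] [Algebra U D] [IsScalarTower F U D]

theorem integral_of_rel (𝔪 : Ideal U)
    (h𝔪 : ∀ u ∈ 𝔪, algebraMap U D (1 + u) ≠ 0) (a c : U) (ha : a ∈ 𝔪) (hc : c ∈ 𝔪) (b : D)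
    (α : ℕ × ℕ × ℕ →₀ F) (n : ℕ) (hn : algebraMap F D (α (0, n, 0)) ≠ 0)
    (hrel : ∀ f : Polynomial F, f.coeff 0 = 0 →
      α.sum (fun e t => algebraMap F D t * (algebraMap U D (Polynomial.aeval a f)) ^ e.1 *
        (Polynomial.aeval b f) ^ e.2.1 * (algebraMap U D (Polynomial.aeval c f)) ^ e.2.2) = 0) :
    ∃ μ ∈ 𝔪, IsIntegral U ((algebraMap U D (1 + μ)) * b) := by
  obtain ⟨P, d, hd, hPd, hP1, hP0⟩ := integral_rel (F := F) (U := U) (D := D)
      𝔪 h𝔪 a c ha hc b α n hn hrel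
  have hbot : ∀ μ ∈ 𝔪, (1 + μ : U) ≠ 0 := by
    intro μ hμ h0
    apply h𝔪 μ hμ
    rw [h0, map_zero]
  have hlead : P.leadingCoeff = P.coeff d := by
    rw [Polynomial.leadingCoeff]
    congr 1
    by_contra hne
    have hlt : P.natDegree < d := lt_of_le_of_ne hPd hne
    rw [Polynomial.coeff_eq_zero_of_natDegree_lt hlt, zero_sub] at hP1
    exact hbot (-1) hP1 (by ring)
  refine ⟨P.coeff d - 1, hP1, ?_⟩
  have h2 := isIntegral_leadingCoeff_smul P b hP0
  rw [hlead, Algebra.smul_def] at h2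
  rw [add_sub_cancel]
  exact h2

omit [IsDomain D] in
theorem den_of_gen {T : Type} (mk : MvPolynomial T F →ₐ[F] D) (𝔪 : Ideal U) (S : Subalgebra U D)
    (h : ∀ t, ∃ μ ∈ 𝔪, (algebraMap U D (1 + μ)) * mk (X t) ∈ S) (f : MvPolynomial T F) :
    ∃ ν ∈ 𝔪, (algebraMap U D (1 + ν)) * mk f ∈ S := by
  induction f using MvPolynomial.induction_on with
  | C a =>
    refine ⟨0, 𝔪.zero_mem, ?_⟩
    have e1 : mk (MvPolynomial.C a) = algebraMap U D (algebraMap F U a) := by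
      rw [← IsScalarTower.algebraMap_apply, ← MvPolynomial.algebraMap_eq, AlgHom.commutes]
    rw [e1, ← map_mul]
    exact Subalgebra.algebraMap_mem _ _
  | add f g hf hg =>
    obtain ⟨ν1, h1, h1'⟩ := hf
    obtain ⟨ν2, h2, h2'⟩ := hg
    refine ⟨ν1 + ν2 + ν1 * ν2, ?_, ?_⟩
    · exact 𝔪.add_mem (𝔪.add_mem h1 h2) (𝔪.mul_mem_right _ h1)
    · have e1 : algebraMap U D (1 + (ν1 + ν2 + ν1 * ν2)) * mk (f + g) =
          algebraMap U D (1 + ν2) * (algebraMap U D (1 + ν1) * mk f) +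
          algebraMap U D (1 + ν1) * (algebraMap U D (1 + ν2) * mk g) := by
        simp only [map_add, map_mul, map_one]
        ring
      rw [e1]
      exact Subalgebra.add_mem _ (Subalgebra.mul_mem _ (Subalgebra.algebraMap_mem _ _) h1')
        (Subalgebra.mul_mem _ (Subalgebra.algebraMap_mem _ _) h2')
  | mul_X f t hf =>
    obtain ⟨ν1, h1, h1'⟩ := hf
    obtain ⟨ν2, h2, h2'⟩ := h t
    refine ⟨ν1 + ν2 + ν1 * ν2, ?_, ?_⟩
    · exact 𝔪.add_mem (𝔪.add_mem h1 h2) (𝔪.mul_mem_right _ h1)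
    · have e1 : algebraMap U D (1 + (ν1 + ν2 + ν1 * ν2)) * mk (f * X t) =
          (algebraMap U D (1 + ν1) * mk f) * (algebraMap U D (1 + ν2) * mk (X t)) := by
        simp only [map_add, map_mul, map_one]
        ring
      rw [e1]
      exact Subalgebra.mul_mem _ h1' h2'

omit [IsDomain D] in
/-- finiteness: a finitely generated submodule containing all the `(1 + ν) f` -/
theorem exists_span {T : Type} [Finite T] (mk : MvPolynomial T F →ₐ[F] D) (𝔪 : Ideal U)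
    (h : ∀ t, ∃ μ ∈ 𝔪, IsIntegral U ((algebraMap U D (1 + μ)) * mk (X t))) :
    ∃ G : Finset D, ∀ f : MvPolynomial T F, ∃ ν ∈ 𝔪,
      (algebraMap U D (1 + ν)) * mk f ∈ Submodule.span U (G : Set D) := by
  choose μ hμ hμint using h
  let S : Set D := Set.range fun t => (algebraMap U D (1 + μ t)) * mk (X t)
  have hfin : S.Finite := Set.finite_range _
  have hfg : (Subalgebra.toSubmodule (Algebra.adjoin U S)).FG := by
    apply fg_adjoin_of_finite hfin
    rintro _ ⟨t, rfl⟩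
    exact hμint t
  obtain ⟨G, hG⟩ := hfg
  refine ⟨G, fun f => ?_⟩
  obtain ⟨ν, hν, hν'⟩ := den_of_gen mk 𝔪 (Algebra.adjoin U S)
    (fun t => ⟨μ t, hμ t, Algebra.subset_adjoin ⟨t, rfl⟩⟩) f
  refine ⟨ν, hν, ?_⟩
  rw [hG]
  exact hν'

end

end Pool.Agent.TH37.RZ
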